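import Mathlib

set_option autoImplicit false

open MeasureTheory TopologicalSpace Set Function
open scoped Distributions Manifold ContDiff

namespace Pool.Agent.H994R3.Leafwise

section Currents

variable (E : Type*) [NormedAddCommGroup E] [NormedSpace ℝ E]

/-- Alternating `p`-forms (`p`-covectors) on the real normed space `E`. A differential `p`-form on
an open subset of `E` is a map into `Form p E`. -/
abbrev Form (p : ℕ) := E [⋀^Fin p]→L[ℝ] ℝ

variable {E}

/-- The space of `p`-currents on the open set `U` of `E`: the continuous linear functionals on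
the space `𝓓(U, Form E p)` of smooth `p`-forms with compact support in `U` (with its usual
`C^∞` topology), with the weak topology (pointwise convergence on test forms). -/
abbrev Current (p : ℕ) (U : Opens E) := WeakDual ℝ 𝓓(U, Form E p)

/-- The value `c(α)` of the current `c` on the test form `α`. -/
noncomputable abbrev pairing {p : ℕ} {U : Opens E} (c : Current p U) (α : 𝓓(U, Form E p)) : ℝ := c α

/-- A `(p+1)`-current `c` is a cycle if its boundary `∂c(β) = c(dβ)` vanishes: for all test forms
`β` and `γ` with `γ = dβ` one has `c(γ) = 0`. -/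
def IsCycle {p : ℕ} {U : Opens E} (c : Current (p + 1) U) : Prop :=
  ∀ (β : 𝓓(U, Form E p)) (γ : 𝓓(U, Form E (p + 1))), (∀ y, γ y = extDeriv (⇑β) y) →
    pairing c γ = 0

/-- The closed convex cone generated by a set `S` in a real topological vector space: the
smallest closed convex cone containing `S`. -/
def closedConvexCone {V : Type*} [AddCommGroup V] [Module ℝ V] [TopologicalSpace V]
    (S : Set V) : Set V :=
  ⋂₀ {K : Set V | IsClosed K ∧ Convex ℝ K ∧ (∀ r : ℝ, 0 ≤ r → ∀ x ∈ K, r • x ∈ K) ∧ S ⊆ K}

/-- `c` is the Dirac `p`-current `α ↦ α_y(w)` of the element `w` of `Λ^p T_y E`; the space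
`Λ^p T_y E` is identified with the dual space of the finite dimensional space `Form E p` of
`p`-covectors. -/
def IsDirac {p : ℕ} {U : Opens E} (y : E) (w : Form E p →L[ℝ] ℝ) (c : Current p U) : Prop :=
  ∀ α : 𝓓(U, Form E p), pairing c α = w (α y)

/-- The decomposable `2`-vector `v ∧ v'`, as a functional on `2`-covectors. -/
noncomputable def wedge (v v' : E) : Form E 2 →L[ℝ] ℝ :=
  ContinuousAlternatingMap.apply ℝ E ℝ ![v, v']

end Currents

section Foliated

variable (L T : Type*) [NormedAddCommGroup L] [NormedSpace ℝ L]
  [NormedAddCommGroup T] [NormedSpace ℝ T]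

/-- A smooth leafwise almost complex structure `J : TF → TF`, `J² = -1`, for the foliation of
`L × T` with leaves `L × {t}` (the local model of every smooth foliation); the tangent space of
the leaf at each point is `L × {0}`. -/
structure LeafwiseACS where
  /-- the operator `J_y` on the tangent space `L` of the leaf through `y` -/
  J : L × T → L →L[ℝ] L
  smooth : ContDiff ℝ ∞ J
  sq : ∀ y v, J y (J y v) = -v

variable {L T}

/-- The structure cone at `y`: the closed convex cone in `Λ² T_y(L × T)` generated by the
2-vectors `v ∧ J v`, `v` tangent to the leaf through `y`. -/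
def structureCone (J : LeafwiseACS L T) (y : L × T) : Set (Form (L × T) 2 →L[ℝ] ℝ) :=
  closedConvexCone {w | ∃ v : L, w = wedge ((v, 0) : L × T) (J.J y v, 0)}

/-- The `C`-currents: the closed convex cone, in the space of `2`-currents on `L × T`, generated
by the Dirac currents of the elements of the structure cones. -/
def cCurrents (J : LeafwiseACS L T) : Set (Current 2 (⊤ : Opens (L × T))) :=
  closedConvexCone {c | ∃ y, ∃ w ∈ structureCone J y, IsDirac y w c}

/-- A parametrised pseudoholomorphic curve in `U`: a proper, somewhere injective map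
`u : S → U` from a connected Riemann surface with image in one leaf `L × {t}` and
`du ∘ j = J ∘ du`. Smoothness and the equation are expressed in the holomorphic charts
`φ : S → ℂ` of the surface, where `j` is multiplication by `i`. A map is somewhere injective if
there is a point `s` with `du(s) ≠ 0` and `u⁻¹(u(s)) = {s}`. -/
structure IsJCurve (J : LeafwiseACS L T) (U : Opens (L × T)) (S : Type)
    [TopologicalSpace S] [ChartedSpace ℂ S] (u : S → L × T) : Prop where
  mem : ∀ s, u s ∈ U
  continuous : Continuous u
  proper : ∀ K : Set (L × T), K ⊆ U → IsCompact K → IsCompact (u ⁻¹' K)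
  leaf : ∃ t : T, ∀ s, (u s).2 = t
  smooth : ∀ φ ∈ atlas ℂ S, ContDiffOn ℝ ∞ (u ∘ φ.symm) φ.target
  holo : ∀ φ ∈ atlas ℂ S, ∀ z ∈ φ.target, ∀ ζ : ℂ,
    (fderiv ℝ (u ∘ φ.symm) z (Complex.I * ζ)).1 =
      J.J (u (φ.symm z)) (fderiv ℝ (u ∘ φ.symm) z ζ).1
  somewhereInjective : ∃ φ ∈ atlas ℂ S, ∃ z ∈ φ.target, fderiv ℝ (u ∘ φ.symm) z ≠ 0 ∧
    ∀ s, u s = u (φ.symm z) → s = φ.symm z

/-- `IsIntegration u c`: the `2`-current `c` on `U` is `α ↦ ∫_S u^*α`, the integral of the pull
back form over the surface `S` with its complex orientation. As usual the integral of a compactly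
supported 2-form `η` over `S` is `∑ i, ∫ ρ i · η(∂_x, ∂_y) dx dy`, the `i`-th integral being
computed in a chart `φ i` whose domain contains the support of `ρ i`, for a (locally finite)
partition of unity `(ρ i)` on `S`. -/
def IsIntegration {U : Opens (L × T)} {S : Type} [TopologicalSpace S] [ChartedSpace ℂ S]
    (u : S → L × T) (c : Current 2 U) : Prop :=
  ∃ (ι : Type) (ρ : PartitionOfUnity ι S univ) (φ : ι → OpenPartialHomeomorph S ℂ),
    (∀ i, φ i ∈ atlas ℂ S ∧ tsupport (ρ i) ⊆ (φ i).source) ∧
    ∀ α : 𝓓(U, Form (L × T) 2),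
      pairing c α = ∑ᶠ i, ∫ z in (φ i).target, ρ i ((φ i).symm z) *
        α (u ((φ i).symm z)) ![fderiv ℝ (u ∘ (φ i).symm) z 1, fderiv ℝ (u ∘ (φ i).symm) z Complex.I]

/-- The set `P_U` of pseudoholomorphic curves in `U`, viewed as currents on `U`. -/
def jCurves (J : LeafwiseACS L T) (U : Opens (L × T)) : Set (Current 2 U) :=
  {c | ∃ (S : Type) (_ : TopologicalSpace S) (_ : T2Space S) (_ : ConnectedSpace S)
    (_ : ChartedSpace ℂ S) (_ : IsManifold 𝓘(ℂ) 1 S) (u : S → L × T),
    IsJCurve J U S u ∧ IsIntegration u c}

/-- `c` is, on `U`, a non-negative superposition of pseudoholomorphic curves: there is a measure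
`ν` on `P_U` (for some σ-algebra, for instance the Borel σ-algebra of any topology) with
`c(α) = ∫ c'(α) dν(c')` for all smooth 2-forms `α` with compact support in `U` (the form `α` is
also denoted `α'` when it is seen as a test form on the whole space `L × T`). -/
def IsSuperposition (J : LeafwiseACS L T) (U : Opens (L × T))
    (c : Current 2 (⊤ : Opens (L × T))) : Prop :=
  ∃ (_ : MeasurableSpace (jCurves J U)) (ν : Measure (jCurves J U)),
    ∀ (α : 𝓓(U, Form (L × T) 2)) (α' : 𝓓((⊤ : Opens (L × T)), Form (L × T) 2)),
      (∀ y, α' y = α y) → Integrable (fun c' : jCurves J U => pairing c'.1 α) ν ∧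
        pairing c α' = ∫ c' : jCurves J U, pairing c'.1 α ∂ν

end Foliated

/-- The leafwise complex structure of the foliation of `L × T` by the complex vector spaces
`L × {t}`: multiplication by `i` on each leaf. -/
noncomputable def stdACS (L T : Type*) [NormedAddCommGroup L] [NormedSpace ℂ L]
    [NormedAddCommGroup T] [NormedSpace ℝ T] : LeafwiseACS L T where
  J _ := (ContinuousLinearMap.lsmul ℝ ℂ Complex.I : L →L[ℝ] L)
  smooth := contDiff_const
  sq y v := by
    simp [smul_smul]

end Pool.Agent.H994R3.Leafwise
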