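import Mathlib
import Pool.Agent.H994R3.LeafwiseDefs

set_option autoImplicit false

open MeasureTheory TopologicalSpace Set Function
open scoped Distributions Manifold ContDiff

namespace Pool.Agent.H994R3.Leafwise

variable {E : Type*} [NormedAddCommGroup E] [NormedSpace ℝ E]

/-- The exterior derivative of a test form. -/
noncomputable def dTest {p : ℕ} {U : Opens E} (β : 𝓓(U, Form E p)) : 𝓓(U, Form E (p + 1)) where
  toFun := extDeriv ⇑β
  contDiff' := by
    have h : ContDiff ℝ ∞ (fderiv ℝ ⇑β) :=
      ContDiff.fderiv_right (m := ∞) β.contDiff (by simp)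
    exact (ContinuousAlternatingMap.alternatizeUncurryFinCLM ℝ E ℝ).contDiff.comp h
  hasCompactSupport' := by
    have h := β.hasCompactSupport.fderiv ℝ
    exact h.comp_left (g := ContinuousAlternatingMap.alternatizeUncurryFinCLM ℝ E ℝ) (map_zero _)
  tsupport_subset' := by
    refine subset_trans ?_ β.tsupport_subset
    refine subset_trans ?_ (tsupport_fderiv_subset ℝ)
    exact tsupport_comp_subset
      (map_zero (ContinuousAlternatingMap.alternatizeUncurryFinCLM ℝ E ℝ)) (fderiv ℝ ⇑β)

/-- A test form on the open set `U`, viewed as a test form on the whole space. -/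
noncomputable def extendTest {p : ℕ} {U : Opens E} (α : 𝓓(U, Form E p)) : 𝓓((⊤ : Opens E), Form E p) where
  toFun := ⇑α
  contDiff' := α.contDiff
  hasCompactSupport' := α.hasCompactSupport
  tsupport_subset' := fun _ _ => trivial

theorem continuous_eval_test {p : ℕ} {U : Opens E} (y : E) (w : Form E p →L[ℝ] ℝ) :
    Continuous (fun α : 𝓓(U, Form E p) => w (α y)) :=
  w.continuous.comp (continuous_eval_const y)

/-- The Dirac `p`-current `α ↦ α_y(w)` of an element `w` of `Λ^p T_y E`; the space `Λ^p T_y E` is
identified with the dual space of the finite dimensional space `Form E p` of `p`-covectors. -/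
noncomputable def dirac {p : ℕ} {U : Opens E} (y : E) (w : Form E p →L[ℝ] ℝ) : Current p U :=
  { toFun := fun α : 𝓓(U, Form E p) => w (α y)
    map_add' := fun α β => map_add w (α y) (β y)
    map_smul' := fun r α => map_smul w r (α y)
    cont := continuous_eval_test y w : 𝓓(U, Form E p) →L[ℝ] ℝ }

theorem dirac_apply {p : ℕ} {U : Opens E} (y : E) (w : Form E p →L[ℝ] ℝ)
    (α : 𝓓(U, Form E p)) : dirac y w α = w (α y) := rfl


theorem isDirac_dirac {p : ℕ} {U : Opens E} (y : E) (w : Form E p →L[ℝ] ℝ) :
    IsDirac y w (dirac (U := U) y w) := fun _ => rfl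

/-- The condition in `IsCycle` is never vacuous: `dβ` is a test form. -/
theorem IsCycle.dTest_eq {p : ℕ} {U : Opens E} {c : Current (p + 1) U} (hc : IsCycle c)
    (β : 𝓓(U, Form E p)) : c (dTest β) = 0 := hc β (dTest β) (fun _ => rfl)

end Pool.Agent.H994R3.Leafwise
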