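import Mathlib
import Pool.Agent.H994R3.LeafwiseDefs
import Pool.Agent.H994R3.LeafwiseAux

set_option autoImplicit false

open MeasureTheory TopologicalSpace Set Function
open scoped Distributions Manifold ContDiff Topology

namespace Pool.Agent.H994R3.Leafwise

/-! ### Hahn-Banach criterion -/

section Cone

variable {X : Type*} [AddCommGroup X] [Module ℝ X] [TopologicalSpace X]

theorem mem_closedConvexCone_of_nonneg {S : Set (WeakDual ℝ X)} (hS : S.Nonempty)
    {c : WeakDual ℝ X} (h : ∀ α : X, (∀ s ∈ S, 0 ≤ s α) → 0 ≤ c α) :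
    c ∈ closedConvexCone S := by
  rintro K ⟨hK1, hK2, hK3, hK4⟩
  by_contra hc
  obtain ⟨s₀, hs₀⟩ := hS
  have h0 : (0 : WeakDual ℝ X) ∈ K := by
    simpa using hK3 0 le_rfl s₀ (hK4 hs₀)
  have : LocallyConvexSpace ℝ (WeakDual ℝ X) :=
    inferInstanceAs (LocallyConvexSpace ℝ (WeakBilin (topDualPairing ℝ X)))
  obtain ⟨f, u, hfc, hfK⟩ := geometric_hahn_banach_point_closed hK2 hK1 hc
  obtain ⟨α, hα⟩ := LinearMap.dualEmbedding_surjective (topDualPairing ℝ X) f
  have hfα : ∀ c' : WeakDual ℝ X, f c' = c' α := by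
    intro c'
    rw [← hα]
    rfl
  have hu : u < 0 := by
    have := hfK 0 h0
    simpa using this
  have hpos : ∀ s ∈ S, 0 ≤ s α := by
    intro s hs
    by_contra hneg
    push Not at hneg
    have h1 : u < f ((u / s α) • s) := hfK _ (hK3 _ (div_nonneg_of_nonpos hu.le hneg.le) s (hK4 hs))
    rw [map_smul, hfα, smul_eq_mul, div_mul_cancel₀ _ hneg.ne] at h1
    exact lt_irrefl _ h1
  have := h α hpos
  rw [hfα] at hfc
  linarith

end Cone

/-! ### Integration lemmas -/

theorem int_first (G : ℝ × (ℝ × ℝ) → ℝ) (hG : ContDiff ℝ ∞ G) (hc : HasCompactSupport G) :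
    ∫ x in Ioi (0 : ℝ) ×ˢ (univ : Set (ℝ × ℝ)), fderiv ℝ G x (1, 0) =
      - ∫ s : ℝ × ℝ, G (0, s) := by
  have hcont : Continuous (fun x => fderiv ℝ G x ((1, 0) : ℝ × (ℝ × ℝ))) := by
    have := (hG.continuous_fderiv (by simp)).clm_apply (continuous_const (y := ((1, 0) : ℝ × (ℝ × ℝ))))
    exact this
  have hsupp : HasCompactSupport (fun x => fderiv ℝ G x ((1, 0) : ℝ × (ℝ × ℝ))) :=
    hc.fderiv_apply ℝ _
  have hint : Integrable (fun x => fderiv ℝ G x ((1, 0) : ℝ × (ℝ × ℝ)))
      (volume : Measure (ℝ × (ℝ × ℝ))) := hcont.integrable_of_hasCompactSupport hsupp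
  have e : (volume : Measure (ℝ × (ℝ × ℝ))).restrict (Ioi (0 : ℝ) ×ˢ (univ : Set (ℝ × ℝ))) =
      ((volume : Measure ℝ).restrict (Ioi 0)).prod (volume : Measure (ℝ × ℝ)) := by
    rw [← Measure.restrict_univ (μ := (volume : Measure (ℝ × ℝ))), Measure.prod_restrict]
    rfl
  rw [e, integral_prod_symm _ (by rw [← e]; exact hint.restrict), ← integral_neg]
  congr 1
  ext s
  have hGs : ContDiff ℝ ∞ (fun x : ℝ => G (x, s)) := hG.comp (by fun_prop)
  have hcs : HasCompactSupport (fun x : ℝ => G (x, s)) := by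
    refine HasCompactSupport.intro (K := Prod.fst '' tsupport G) (hc.isCompact.image continuous_fst)
      (fun x hx => ?_)
    by_contra hne
    exact hx ⟨(x, s), subset_tsupport _ hne, rfl⟩
  have h1 := HasCompactSupport.integral_Ioi_deriv_eq (hGs.of_le (by simp)) hcs 0
  rw [← h1]
  apply integral_congr_ae
  filter_upwards with x
  have hd : HasFDerivAt G (fderiv ℝ G (x, s)) (x, s) :=
    (hG.differentiable (by simp) _).hasFDerivAt
  have hx : HasDerivAt (fun x : ℝ => ((x, s) : ℝ × (ℝ × ℝ))) (1, 0) x :=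
    (hasDerivAt_id x).prodMk (hasDerivAt_const x s)
  exact (hd.comp_hasDerivAt x hx).deriv.symm

theorem integral_fderiv_zero {V : Type*} [NormedAddCommGroup V] [NormedSpace ℝ V]
    [FiniteDimensional ℝ V] [MeasurableSpace V] [BorelSpace V] (μ : Measure V)
    [μ.IsAddHaarMeasure]
    (G : V → ℝ) (hG : ContDiff ℝ ∞ G) (hc : HasCompactSupport G) (v : V) :
    ∫ x, fderiv ℝ G x v ∂μ = 0 := by
  have hcont : Continuous (fun x => fderiv ℝ G x v) :=
    (hG.continuous_fderiv (by simp)).clm_apply continuous_const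
  have hint : Integrable (fun x => fderiv ℝ G x v) μ :=
    hcont.integrable_of_hasCompactSupport (hc.fderiv_apply ℝ _)
  have hint2 : Integrable G μ := hG.continuous.integrable_of_hasCompactSupport hc
  have := integral_bilinear_fderiv_right_eq_neg_left_of_integrable (μ := μ) (v := v)
    (f := G) (g := fun _ => (1 : ℝ)) (B := ContinuousLinearMap.mul ℝ ℝ)
    (by simpa using hint) (by simp) (by simpa using hint2)
    (fun x _ => hG.differentiable (by simp) x) (fun x _ => differentiableAt_const _)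
  simp at this
  exact this

theorem int_second (G : ℝ × (ℝ × ℝ) → ℝ) (hG : ContDiff ℝ ∞ G) (hc : HasCompactSupport G)
    (v : ℝ × ℝ) :
    ∫ x in Ioi (0 : ℝ) ×ˢ (univ : Set (ℝ × ℝ)), fderiv ℝ G x (0, v) = 0 := by
  have hcont : Continuous (fun x => fderiv ℝ G x ((0, v) : ℝ × (ℝ × ℝ))) := by
    have := (hG.continuous_fderiv (by simp)).clm_apply (continuous_const (y := ((0, v) : ℝ × (ℝ × ℝ))))
    exact this
  have hsupp : HasCompactSupport (fun x => fderiv ℝ G x ((0, v) : ℝ × (ℝ × ℝ))) :=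
    hc.fderiv_apply ℝ _
  have hint : Integrable (fun x => fderiv ℝ G x ((0, v) : ℝ × (ℝ × ℝ)))
      (volume : Measure (ℝ × (ℝ × ℝ))) := hcont.integrable_of_hasCompactSupport hsupp
  have e : (volume : Measure (ℝ × (ℝ × ℝ))).restrict (Ioi (0 : ℝ) ×ˢ (univ : Set (ℝ × ℝ))) =
      ((volume : Measure ℝ).restrict (Ioi 0)).prod (volume : Measure (ℝ × ℝ)) := by
    rw [← Measure.restrict_univ (μ := (volume : Measure (ℝ × ℝ))), Measure.prod_restrict]
    rfl
  rw [e, integral_prod _ (by rw [← e]; exact hint.restrict)]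
  have : ∀ r : ℝ, ∫ s : ℝ × ℝ, fderiv ℝ G (r, s) (0, v) = 0 := by
    intro r
    have hGs : ContDiff ℝ ∞ (fun s : ℝ × ℝ => G (r, s)) := hG.comp (by fun_prop)
    have hcs : HasCompactSupport (fun s : ℝ × ℝ => G (r, s)) := by
      refine HasCompactSupport.intro (K := Prod.snd '' tsupport G)
        (hc.isCompact.image continuous_snd) (fun x hx => ?_)
      by_contra hne
      exact hx ⟨(r, x), subset_tsupport _ hne, rfl⟩
    refine Eq.trans ?_ (integral_fderiv_zero volume _ hGs hcs v)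
    apply integral_congr_ae
    filter_upwards with s
    have hd : HasFDerivAt G (fderiv ℝ G (r, s)) (r, s) :=
      (hG.differentiable (by simp) _).hasFDerivAt
    have hx : HasFDerivAt (fun s : ℝ × ℝ => ((r, s) : ℝ × (ℝ × ℝ)))
        (ContinuousLinearMap.inr ℝ ℝ (ℝ × ℝ)) s := hasFDerivAt_prodMk_right r s
    have h2 : fderiv ℝ (fun s : ℝ × ℝ => G (r, s)) s =
        (fderiv ℝ G (r, s)) ∘L (ContinuousLinearMap.inr ℝ ℝ (ℝ × ℝ)) := (hd.comp s hx).fderiv
    rw [h2]
    simp
  simp [this]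

end Pool.Agent.H994R3.Leafwise
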