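import Mathlib

set_option autoImplicit false

open Set Function Filter
open scoped Topology Manifold ContDiff

namespace Pool.Agent.H994R3.Leafwise

variable {S : Type} [TopologicalSpace S] [ChartedSpace ℂ S]
  {G : Type*} [NormedAddCommGroup G] [NormedSpace ℂ G]

/-- holomorphic in every chart of the atlas -/
def HolC (F : S → G) : Prop := ∀ φ ∈ atlas ℂ S, DifferentiableOn ℂ (F ∘ φ.symm) φ.target

theorem HolC.analyticAt [CompleteSpace G] {F : S → G} (hF : HolC F) (s : S) :
    AnalyticAt ℂ (F ∘ (chartAt ℂ s).symm) (chartAt ℂ s s) :=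
  (hF _ (chart_mem_atlas ℂ s)).analyticAt
    ((chartAt ℂ s).open_target.mem_nhds (mem_chart_target ℂ s))

theorem eventually_chart {s : S} {p : S → Prop} :
    (∀ᶠ t in 𝓝 s, p t) ↔ ∀ᶠ z in 𝓝 (chartAt ℂ s s), p ((chartAt ℂ s).symm z) := by
  have h : 𝓝 s = map (chartAt ℂ s).symm (𝓝 (chartAt ℂ s s)) := by
    have := (chartAt ℂ s).symm.map_nhds_eq (x := chartAt ℂ s s) (mem_chart_target ℂ s)
    rw [this, (chartAt ℂ s).left_inv (mem_chart_source ℂ s)]
  rw [h, eventually_map]

theorem identity [CompleteSpace G] [PreconnectedSpace S] {F : S → G} (hF : HolC F)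
    (c : G) (s₀ : S) (h : ∀ᶠ s in 𝓝 s₀, F s = c) : ∀ s, F s = c := by
  set A : Set S := {s | ∀ᶠ t in 𝓝 s, F t = c} with hA
  have hopen : IsOpen A := by
    rw [isOpen_iff_mem_nhds]
    intro s hs
    exact hs.eventually_nhds
  have hclosed : IsClosed A := by
    rw [← isOpen_compl_iff, isOpen_iff_mem_nhds]
    intro s hs
    -- dichotomy for the analytic function in the chart at s
    have han := (hF.analyticAt s).sub (analyticAt_const (v := c))
    rcases han.eventually_eq_zero_or_eventually_ne_zero with h0 | h0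
    · exfalso
      apply hs
      show ∀ᶠ t in 𝓝 s, F t = c
      rw [eventually_chart]
      filter_upwards [h0] with z hz
      simpa [sub_eq_zero] using hz
    · -- near s, F ≠ c except maybe at s
      have h1 : ∀ᶠ z in 𝓝 (chartAt ℂ s s), z ≠ chartAt ℂ s s → F ((chartAt ℂ s).symm z) ≠ c := by
        rw [eventually_nhdsWithin_iff] at h0
        filter_upwards [h0] with z hz hne heq
        apply hz hne
        simp [heq]
      have h2 : ∀ᶠ t in 𝓝 s, chartAt ℂ s t ≠ chartAt ℂ s s → F t ≠ c := by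
        rw [eventually_chart]
        have hmem : ∀ᶠ z in 𝓝 (chartAt ℂ s s), z ∈ (chartAt ℂ s).target :=
          (chartAt ℂ s).open_target.mem_nhds (mem_chart_target ℂ s)
        filter_upwards [h1, hmem] with z hz hzt hne
        apply hz
        rwa [(chartAt ℂ s).right_inv hzt] at hne
      -- show eventually t ∉ A
      have h3 : ∀ᶠ t in 𝓝 s, t ∈ (chartAt ℂ s).source :=
        (chartAt ℂ s).open_source.mem_nhds (mem_chart_source ℂ s)
      filter_upwards [h2.eventually_nhds, h3] with t ht hts htA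
      -- near t, F = c, so all points near t have the chart value of s: impossible
      have h4 : ∀ᶠ t' in 𝓝 t, chartAt ℂ s t' = chartAt ℂ s s := by
        filter_upwards [ht, (htA : ∀ᶠ t' in 𝓝 t, F t' = c)] with t' h5 h6
        by_contra hne
        exact h5 hne h6
      have h5 : ∀ᶠ z in 𝓝 (chartAt ℂ s t), z = chartAt ℂ s s := by
        have hm : 𝓝 (chartAt ℂ s t) = map (chartAt ℂ s) (𝓝 t) :=
          ((chartAt ℂ s).map_nhds_eq hts).symm
        rw [hm, eventually_map]
        exact h4
      have h6 : chartAt ℂ s t = chartAt ℂ s s := h5.self_of_nhds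
      rw [h6] at h5
      have h7 : (𝓝[≠] (chartAt ℂ s s)).NeBot := inferInstance
      have h8 : ∀ᶠ z in 𝓝[≠] (chartAt ℂ s s), False := by
        rw [eventually_nhdsWithin_iff]
        filter_upwards [h5] with z hz hne
        exact hne hz
      exact h8.exists.elim fun _ h => h
  have hne : A.Nonempty := ⟨s₀, h⟩
  have huniv : A = univ := IsClopen.eq_univ ⟨hclosed, hopen⟩ hne
  intro s
  have hs : s ∈ A := by rw [huniv]; trivial
  exact (hs : ∀ᶠ t in 𝓝 s, F t = c).self_of_nhds

theorem open_or_const {g : S → ℂ} (hg : HolC g) (s : S) :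
    (∀ᶠ t in 𝓝 s, g t = g s) ∨ 𝓝 (g s) ≤ map g (𝓝 s) := by
  have hs : (chartAt ℂ s).symm (chartAt ℂ s s) = s :=
    (chartAt ℂ s).left_inv (mem_chart_source ℂ s)
  rcases (hg.analyticAt s).eventually_constant_or_nhds_le_map_nhds with h | h
  · left
    rw [eventually_chart]
    filter_upwards [h] with z hz
    simpa [hs] using hz
  · right
    have hm : 𝓝 s = map (chartAt ℂ s).symm (𝓝 (chartAt ℂ s s)) := by
      have := (chartAt ℂ s).symm.map_nhds_eq (x := chartAt ℂ s s) (mem_chart_target ℂ s)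
      rw [this, hs]
    rw [hm, map_map]
    simpa [hs] using h

/-- A holomorphic function with vanishing real part on a neighbourhood is locally constant. -/
theorem const_of_re_zero {g : S → ℂ} (hg : HolC g) (s : S) (h : ∀ᶠ t in 𝓝 s, (g t).re = 0) :
    ∀ᶠ t in 𝓝 s, g t = g s := by
  rcases open_or_const hg s with h1 | h1
  · exact h1
  · exfalso
    have h2 : ∀ᶠ w in 𝓝 (g s), w.re = 0 := h1 h
    have h3 : Tendsto (fun x : ℝ => g s + (x : ℂ)) (𝓝[>] 0) (𝓝 (g s)) := by
      have : Tendsto (fun x : ℝ => g s + (x : ℂ)) (𝓝 0) (𝓝 (g s + ((0 : ℝ) : ℂ))) := by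
        apply Continuous.tendsto; fun_prop
      simp only [Complex.ofReal_zero, add_zero] at this
      exact this.mono_left nhdsWithin_le_nhds
    have h4 := h3.eventually h2
    have h5 : ∀ᶠ x : ℝ in 𝓝[>] 0, 0 < x := self_mem_nhdsWithin
    obtain ⟨x, hx1, hx2⟩ := (h4.and h5).exists
    have h6 : (g s).re = 0 := h2.self_of_nhds
    simp [h6] at hx1
    linarith

/-- A holomorphic function on a connected surface whose real part attains a local maximum along
real translates is constant: if `g s - x` is not a value of `g` for small `x > 0`, then `g` is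
constant. -/
theorem exists_value_sub [PreconnectedSpace S] {g : S → ℂ} (hg : HolC g)
    (hne : ¬ ∃ c, ∀ s, g s = c) (s : S) {P : ℝ → Prop} (hP : ∀ᶠ x in 𝓝[>] (0 : ℝ), P x) :
    ∃ x : ℝ, 0 < x ∧ P x ∧ ∃ t, g t = g s - x := by
  rcases open_or_const hg s with h1 | h1
  · exact absurd ⟨g s, identity hg (g s) s h1⟩ hne
  · have h2 : ∀ᶠ w in 𝓝 (g s), ∃ t, g t = w := by
      apply h1
      rw [mem_map]
      apply Filter.univ_mem'
      intro t
      exact ⟨t, rfl⟩
    have h3 : Tendsto (fun x : ℝ => g s - (x : ℂ)) (𝓝[>] 0) (𝓝 (g s)) := by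
      have : Tendsto (fun x : ℝ => g s - (x : ℂ)) (𝓝 0) (𝓝 (g s - ((0 : ℝ) : ℂ))) := by
        apply Continuous.tendsto; fun_prop
      simp only [Complex.ofReal_zero, sub_zero] at this
      exact this.mono_left nhdsWithin_le_nhds
    have h5 : ∀ᶠ x : ℝ in 𝓝[>] 0, 0 < x := self_mem_nhdsWithin
    obtain ⟨x, ⟨hx1, hx2⟩, hx3⟩ := (((h3.eventually h2).and h5).and hP).exists
    exact ⟨x, hx2, hx3, hx1⟩

end Pool.Agent.H994R3.Leafwise
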