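import Mathlib
import Pool.Agent.H994R3.LeafwiseDefs
import Pool.Agent.H994R3.LeafwiseAux
import Pool.Agent.H994R3.LeafwiseHolo

set_option autoImplicit false

open MeasureTheory TopologicalSpace Set Function
open scoped Distributions Manifold ContDiff Topology

namespace Pool.Agent.H994R3.Leafwise

/-- the determinant on `ℝ²` -/
noncomputable def det2 : (Fin 2 → ℝ) [⋀^Fin 2]→L[ℝ] ℝ :=
  { (Matrix.detRowAlternating : (Fin 2 → ℝ) [⋀^Fin 2]→ₗ[ℝ] ℝ) with
    cont := by
      have : Continuous (fun M : Fin 2 → Fin 2 → ℝ => Matrix.det (Matrix.of M)) := by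
        simp only [Matrix.det_fin_two]
        fun_prop
      exact this }

theorem det2_apply (v : Fin 2 → Fin 2 → ℝ) : det2 v = v 0 0 * v 1 1 - v 0 1 * v 1 0 := by
  change Matrix.det (Matrix.of v) = _
  simp [Matrix.det_fin_two]

section

variable {E : Type*} [NormedAddCommGroup E] [NormedSpace ℝ E]

/-- `r ∧ s` -/
noncomputable def form2 (r s : E →L[ℝ] ℝ) : Form E 2 :=
  det2.compContinuousLinearMap (ContinuousLinearMap.pi ![r, s])

theorem form2_apply (r s : E →L[ℝ] ℝ) (v w : E) :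
    form2 r s ![v, w] = r v * s w - s v * r w := by
  simp [form2, det2_apply]

end

section

variable (L T : Type*) [NormedAddCommGroup L] [NormedSpace ℂ L]
  [NormedAddCommGroup T] [NormedSpace ℝ T] [FiniteDimensional ℂ L]

/-- coordinate functionals -/
noncomputable def lam (i : Fin (Module.finrank ℂ L)) : L →L[ℂ] ℂ :=
  LinearMap.toContinuousLinearMap ((Module.finBasis ℂ L).coord i)

/-- a positive 2-form -/
noncomputable def omega : Form (L × T) 2 :=
  ∑ i : Fin (Module.finrank ℂ L),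
    form2 (Complex.reCLM ∘L ((lam L i).restrictScalars ℝ) ∘L (ContinuousLinearMap.fst ℝ L T))
      (Complex.imCLM ∘L ((lam L i).restrictScalars ℝ) ∘L (ContinuousLinearMap.fst ℝ L T))

variable {L T}

theorem omega_apply (v w : L × T) (h : w.1 = Complex.I • v.1) :
    omega L T ![v, w] = ∑ i, Complex.normSq (lam L i v.1) := by
  simp only [omega, ContinuousAlternatingMap.sum_apply, form2_apply]
  apply Finset.sum_congr rfl
  intro i _
  simp [h, Complex.normSq_apply]

theorem omega_nonneg (v w : L × T) (h : w.1 = Complex.I • v.1) : 0 ≤ omega L T ![v, w] := by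
  rw [omega_apply v w h]
  exact Finset.sum_nonneg (fun i _ => Complex.normSq_nonneg _)

theorem omega_eq_zero (v w : L × T) (h : w.1 = Complex.I • v.1) (h0 : omega L T ![v, w] = 0) :
    v.1 = 0 := by
  rw [omega_apply v w h, Finset.sum_eq_zero_iff_of_nonneg
    (fun i _ => Complex.normSq_nonneg _)] at h0
  apply (Module.finBasis ℂ L).ext_elem
  intro i
  have := h0 i (Finset.mem_univ _)
  rw [Complex.normSq_eq_zero] at this
  simpa [lam] using this

/-- the test form `χ ω` -/
noncomputable def scal {U : Opens (L × T)} (χ : L × T → ℝ) (h1 : ContDiff ℝ ∞ χ)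
    (h2 : HasCompactSupport χ) (h3 : tsupport χ ⊆ U) : 𝓓(U, Form (L × T) 2) where
  toFun y := χ y • omega L T
  contDiff' := h1.smul contDiff_const
  hasCompactSupport' := h2.smul_right
  tsupport_subset' := (tsupport_smul_subset_left χ (fun _ => omega L T)).trans h3

theorem scal_apply {U : Opens (L × T)} (χ : L × T → ℝ) (h1 : ContDiff ℝ ∞ χ)
    (h2 : HasCompactSupport χ) (h3 : tsupport χ ⊆ U) (y : L × T) :
    scal χ h1 h2 h3 y = χ y • omega L T := rfl

variable {S : Type} [TopologicalSpace S] [ChartedSpace ℂ S]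

omit [FiniteDimensional ℂ L] in
theorem deriv_I {U : Opens (L × T)} {u : S → L × T} (hu : IsJCurve (stdACS L T) U S u)
    {φ : OpenPartialHomeomorph S ℂ} (hφ : φ ∈ atlas ℂ S) {z : ℂ} (hz : z ∈ φ.target) (ζ : ℂ) :
    (fderiv ℝ (u ∘ φ.symm) z (Complex.I * ζ)).1 =
      Complex.I • (fderiv ℝ (u ∘ φ.symm) z ζ).1 := hu.holo φ hφ z hz ζ

omit [FiniteDimensional ℂ L] in
/-- the derivative of the leaf component is complex linear -/
theorem deriv_smul {U : Opens (L × T)} {u : S → L × T} (hu : IsJCurve (stdACS L T) U S u)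
    {φ : OpenPartialHomeomorph S ℂ} (hφ : φ ∈ atlas ℂ S) {z : ℂ} (hz : z ∈ φ.target) (ζ : ℂ) :
    (fderiv ℝ (u ∘ φ.symm) z ζ).1 = ζ • (fderiv ℝ (u ∘ φ.symm) z 1).1 := by
  have h1 : ζ = (ζ.re : ℝ) • (1 : ℂ) + (ζ.im : ℝ) • (Complex.I * 1) := by
    simp only [Complex.real_smul, mul_one]
    rw [Complex.re_add_im]
  have h2 : fderiv ℝ (u ∘ φ.symm) z ζ = (ζ.re : ℝ) • fderiv ℝ (u ∘ φ.symm) z 1 +
      (ζ.im : ℝ) • fderiv ℝ (u ∘ φ.symm) z (Complex.I * 1) := by
    conv_lhs => rw [h1]
    rw [map_add, map_smul, map_smul]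
  rw [h2]
  simp only [Prod.fst_add, Prod.smul_fst]
  rw [deriv_I hu hφ hz 1]
  conv_rhs => rw [← Complex.re_add_im ζ]
  rw [add_smul, mul_smul, Complex.coe_smul, Complex.coe_smul]

omit [FiniteDimensional ℂ L] in
/-- the leaf component is holomorphic -/
theorem IsJCurve.holC {U : Opens (L × T)} {u : S → L × T} (hu : IsJCurve (stdACS L T) U S u) :
    HolC (fun s => (u s).1) := by
  intro φ hφ z hz
  apply DifferentiableAt.differentiableWithinAt
  have hd : DifferentiableAt ℝ (u ∘ φ.symm) z :=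
    ((hu.smooth φ hφ).contDiffAt (φ.open_target.mem_nhds hz)).differentiableAt (by simp)
  have h1 : HasFDerivAt (fun w => (u (φ.symm w)).1)
      ((ContinuousLinearMap.fst ℝ L T) ∘L fderiv ℝ (u ∘ φ.symm) z) z :=
    (ContinuousLinearMap.fst ℝ L T).hasFDerivAt.comp z hd.hasFDerivAt
  have h2 : (ContinuousLinearMap.fst ℝ L T) ∘L fderiv ℝ (u ∘ φ.symm) z =
      (ContinuousLinearMap.toSpanSingleton ℂ
        ((fderiv ℝ (u ∘ φ.symm) z 1).1)).restrictScalars ℝ := by
    ext
    simp
    exact deriv_smul hu hφ hz _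
  rw [h2] at h1
  exact (hasFDerivAt_of_restrictScalars ℝ h1 rfl).differentiableAt

end

end Pool.Agent.H994R3.Leafwise
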