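import Mathlib
import Pool.Agent.H994R3.LeafwiseMass

set_option autoImplicit false

open MeasureTheory TopologicalSpace Set Function
open scoped Distributions Manifold ContDiff Topology

namespace Pool.Agent.H994R3.Leafwise

variable {L T : Type*} [NormedAddCommGroup L] [NormedSpace ℂ L]
  [NormedAddCommGroup T] [NormedSpace ℝ T] [FiniteDimensional ℂ L]
  {S : Type} [TopologicalSpace S] [ChartedSpace ℂ S]

/-- the local integrand -/
noncomputable def dens (u : S → L × T) (φ : OpenPartialHomeomorph S ℂ) (χ : L × T → ℝ)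
    (r : S → ℝ) (z : ℂ) : ℝ :=
  r (φ.symm z) * (χ (u (φ.symm z)) • omega L T)
    ![fderiv ℝ (u ∘ φ.symm) z 1, fderiv ℝ (u ∘ φ.symm) z Complex.I]

variable {U : Opens (L × T)} {u : S → L × T}

theorem dens_nonneg (hu : IsJCurve (stdACS L T) U S u) {φ : OpenPartialHomeomorph S ℂ}
    (hφ : φ ∈ atlas ℂ S) {χ : L × T → ℝ} (hχ : ∀ y, 0 ≤ χ y) {r : S → ℝ} (hr : ∀ s, 0 ≤ r s)
    {z : ℂ} (hz : z ∈ φ.target) : 0 ≤ dens u φ χ r z := by
  unfold dens
  apply mul_nonneg (hr _)
  rw [ContinuousAlternatingMap.smul_apply, smul_eq_mul]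
  apply mul_nonneg (hχ _)
  apply omega_nonneg
  have := deriv_I hu hφ hz 1
  rwa [mul_one] at this

/-- if the density vanishes at a point where the weights are positive, the derivative vanishes -/
theorem deriv_zero_of_dens (hu : IsJCurve (stdACS L T) U S u) {φ : OpenPartialHomeomorph S ℂ}
    (hφ : φ ∈ atlas ℂ S) {χ : L × T → ℝ} {r : S → ℝ}
    {z : ℂ} (hz : z ∈ φ.target) (hr : r (φ.symm z) ≠ 0) (hc : χ (u (φ.symm z)) ≠ 0)
    (h0 : dens u φ χ r z = 0) : fderiv ℝ (u ∘ φ.symm) z = 0 := by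
  unfold dens at h0
  rw [ContinuousAlternatingMap.smul_apply, smul_eq_mul, ← mul_assoc] at h0
  have h1 := (mul_eq_zero.1 h0).resolve_left (mul_ne_zero hr hc)
  have hI := deriv_I hu hφ hz 1
  rw [mul_one] at hI
  have h2 := omega_eq_zero _ _ hI h1
  have hd : DifferentiableAt ℝ (u ∘ φ.symm) z :=
    ((hu.smooth φ hφ).contDiffAt (φ.open_target.mem_nhds hz)).differentiableAt (by simp)
  obtain ⟨t, ht⟩ := hu.leaf
  have h3 : HasFDerivAt (fun w => (u (φ.symm w)).2)
      ((ContinuousLinearMap.snd ℝ L T) ∘L fderiv ℝ (u ∘ φ.symm) z) z :=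
    (ContinuousLinearMap.snd ℝ L T).hasFDerivAt.comp z hd.hasFDerivAt
  have h4 : HasFDerivAt (fun w => (u (φ.symm w)).2) (0 : ℂ →L[ℝ] T) z := by
    have : (fun w => (u (φ.symm w)).2) = fun _ => t := by
      ext w; exact ht _
    rw [this]
    exact hasFDerivAt_const t z
  have h5 := h3.unique h4
  apply ContinuousLinearMap.ext
  intro ζ
  apply Prod.ext
  · rw [deriv_smul hu hφ hz ζ, h2]
    simp
  · exact congrArg (fun f : ℂ →L[ℝ] T => f ζ) h5

theorem dens_continuousOn (hu : IsJCurve (stdACS L T) U S u) {φ : OpenPartialHomeomorph S ℂ}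
    (hφ : φ ∈ atlas ℂ S) {χ : L × T → ℝ} (hχ : Continuous χ) {r : S → ℝ} (hr : Continuous r) :
    ContinuousOn (dens u φ χ r) φ.target := by
  unfold dens
  have h1 : ContinuousOn (fun z => r (φ.symm z)) φ.target := hr.comp_continuousOn φ.continuousOn_symm
  have h2 : ContinuousOn (fun z => χ (u (φ.symm z))) φ.target :=
    (hχ.comp hu.continuous).comp_continuousOn φ.continuousOn_symm
  have h3 : ContinuousOn (fun z => fderiv ℝ (u ∘ φ.symm) z) φ.target :=
    (hu.smooth φ hφ).continuousOn_fderiv_of_isOpen φ.open_target (by simp)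
  have h4 : ContinuousOn (fun z => omega L T ![fderiv ℝ (u ∘ φ.symm) z 1,
      fderiv ℝ (u ∘ φ.symm) z Complex.I]) φ.target := by
    apply (omega L T).cont.comp_continuousOn
    rw [continuousOn_pi]
    intro i
    fin_cases i
    · exact h3.clm_apply continuousOn_const
    · exact h3.clm_apply continuousOn_const
  apply h1.mul
  simp only [ContinuousAlternatingMap.smul_apply, smul_eq_mul]
  exact h2.mul h4

theorem dens_support [T2Space S] (hu : IsJCurve (stdACS L T) U S u) {φ : OpenPartialHomeomorph S ℂ}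
    {χ : L × T → ℝ} (hc : HasCompactSupport χ) (hU : tsupport χ ⊆ U) {r : S → ℝ}
    (hr : tsupport r ⊆ φ.source) :
    ∃ Q : Set ℂ, IsCompact Q ∧ Q ⊆ φ.target ∧ ∀ z ∈ φ.target, z ∉ Q → dens u φ χ r z = 0 := by
  have hcomp : IsCompact (tsupport r ∩ u ⁻¹' (tsupport χ)) :=
    (hu.proper _ hU hc.isCompact).inter_left (isClosed_tsupport r)
  refine ⟨φ '' (tsupport r ∩ u ⁻¹' (tsupport χ)), ?_, ?_, ?_⟩
  · exact hcomp.image_of_continuousOn (φ.continuousOn.mono (inter_subset_left.trans hr))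
  · rintro _ ⟨s, ⟨hs, _⟩, rfl⟩
    exact φ.map_source (hr hs)
  · intro z hz hzQ
    unfold dens
    by_cases h1 : r (φ.symm z) = 0
    · simp [h1]
    · by_cases h2 : χ (u (φ.symm z)) = 0
      · simp [h2]
      · exfalso
        apply hzQ
        refine ⟨φ.symm z, ⟨subset_tsupport _ h1, ?_⟩, φ.right_inv hz⟩
        exact subset_tsupport χ h2

theorem dens_integrableOn [T2Space S] (hu : IsJCurve (stdACS L T) U S u)
    {φ : OpenPartialHomeomorph S ℂ}
    (hφ : φ ∈ atlas ℂ S) {χ : L × T → ℝ} (hχ : Continuous χ) (hc : HasCompactSupport χ)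
    (hU : tsupport χ ⊆ U) {r : S → ℝ} (hrc : Continuous r)
    (hr : tsupport r ⊆ φ.source) : IntegrableOn (dens u φ χ r) φ.target := by
  obtain ⟨Q, hQ1, hQ2, hQ3⟩ := dens_support hu hc hU hr
  have h1 : IntegrableOn (dens u φ χ r) Q :=
    ((dens_continuousOn hu hφ hχ hrc).mono hQ2).integrableOn_compact hQ1
  have h2 : IntegrableOn (dens u φ χ r) (φ.target \ Q) := by
    have : EqOn (dens u φ χ r) (fun _ => 0) (φ.target \ Q) := fun z hz => hQ3 z hz.1 hz.2
    rw [integrableOn_congr_fun this (φ.open_target.measurableSet.diff hQ1.measurableSet)]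
    exact integrableOn_zero
  have : φ.target ⊆ Q ∪ (φ.target \ Q) := by
    intro z hz
    by_cases h : z ∈ Q
    · exact Or.inl h
    · exact Or.inr ⟨hz, h⟩
  exact (h1.union h2).mono_set this

theorem dens_zero_of_integral [T2Space S] (hu : IsJCurve (stdACS L T) U S u)
    {φ : OpenPartialHomeomorph S ℂ}
    (hφ : φ ∈ atlas ℂ S) {χ : L × T → ℝ} (hχ0 : ∀ y, 0 ≤ χ y) (hχ : Continuous χ)
    (hc : HasCompactSupport χ)
    (hU : tsupport χ ⊆ U) {r : S → ℝ} (hr0 : ∀ s, 0 ≤ r s) (hrc : Continuous r)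
    (hr : tsupport r ⊆ φ.source) (h0 : ∫ z in φ.target, dens u φ χ r z = 0) :
    ∀ z ∈ φ.target, dens u φ χ r z = 0 := by
  have hint := dens_integrableOn hu hφ hχ hc hU hrc hr
  have hnn : 0 ≤ᵐ[volume.restrict φ.target] dens u φ χ r := by
    rw [Filter.EventuallyLE, ae_restrict_iff' φ.open_target.measurableSet]
    exact Filter.Eventually.of_forall (fun z hz => dens_nonneg hu hφ hχ0 hr0 hz)
  have h1 := (setIntegral_eq_zero_iff_of_nonneg_ae hnn hint).1 h0
  have h2 := Measure.eqOn_open_of_ae_eq h1 φ.open_target (dens_continuousOn hu hφ hχ hrc)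
    continuousOn_const
  exact h2

/-- the main lemma on masses -/
theorem mass [T2Space S] (hu : IsJCurve (stdACS L T) U S u) {ι : Type}
    (ρ : PartitionOfUnity ι S univ) (φ : ι → OpenPartialHomeomorph S ℂ)
    (hρ : ∀ i, φ i ∈ atlas ℂ S ∧ tsupport (ρ i) ⊆ (φ i).source)
    {χ : L × T → ℝ} (hχ0 : ∀ y, 0 ≤ χ y) (hχ : Continuous χ)
    (hc : HasCompactSupport χ) (hU : tsupport χ ⊆ U) :
    0 ≤ ∑ᶠ i, ∫ z in (φ i).target, dens u (φ i) χ (ρ i) z ∧
    (∑ᶠ i, ∫ z in (φ i).target, dens u (φ i) χ (ρ i) z = 0 →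
      ∀ s, 0 < χ (u s) → ∀ᶠ t in 𝓝 s, u t = u s) ∧
    (∑ᶠ i, ∫ z in (φ i).target, dens u (φ i) χ (ρ i) z ≠ 0 →
      ∃ s, χ (u s) ≠ 0 ∧ ¬ ∀ᶠ t in 𝓝 s, u t = u s) := by
  have hnn : ∀ i, 0 ≤ ∫ z in (φ i).target, dens u (φ i) χ (ρ i) z := by
    intro i
    apply setIntegral_nonneg (φ i).open_target.measurableSet
    intro z hz
    exact dens_nonneg hu (hρ i).1 hχ0 (ρ.nonneg i) hz
  have hfin : (support fun i => ∫ z in (φ i).target, dens u (φ i) χ (ρ i) z).Finite := by
    have hcomp := hu.proper _ hU hc.isCompact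
    apply (ρ.locallyFinite.finite_nonempty_inter_compact hcomp).subset
    intro i hi
    by_contra hne
    apply hi
    apply integral_eq_zero_of_ae
    filter_upwards with z
    unfold dens
    by_cases h1 : ρ i ((φ i).symm z) = 0
    · simp [h1]
    · by_cases h2 : χ (u ((φ i).symm z)) = 0
      · simp [h2]
      · exfalso
        apply hne
        exact ⟨(φ i).symm z, h1, subset_tsupport χ h2⟩
  refine ⟨finsum_nonneg hnn, ?_, ?_⟩
  · intro h0 s hs
    have hall : ∀ i, ∫ z in (φ i).target, dens u (φ i) χ (ρ i) z = 0 := by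
      intro i
      apply le_antisymm _ (hnn i)
      rw [← h0]
      exact single_le_finsum i hfin hnn
    -- an index with positive weight at s
    have hsum : ∑ᶠ i, ρ i s = 1 := ρ.sum_eq_one (mem_univ s)
    obtain ⟨i, hi⟩ : ∃ i, ρ i s ≠ 0 := by
      by_contra hno
      push Not at hno
      simp [hno] at hsum
    have hss : s ∈ (φ i).source := (hρ i).2 (subset_tsupport _ hi)
    have hdz := dens_zero_of_integral hu (hρ i).1 hχ0 hχ hc hU (ρ.nonneg i) (ρ i).continuous
      (hρ i).2 (hall i)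
    -- an open neighbourhood on which both weights are nonzero
    have hN : ∀ᶠ t in 𝓝 s, ρ i t ≠ 0 ∧ χ (u t) ≠ 0 := by
      apply Filter.Eventually.and
      · exact (ρ i).continuous.continuousAt.eventually_ne hi
      · exact (hχ.comp hu.continuous).continuousAt.eventually_ne hs.ne'
    have hN2 : ∀ᶠ z in 𝓝 (φ i s), z ∈ (φ i).target ∧
        (ρ i ((φ i).symm z) ≠ 0 ∧ χ (u ((φ i).symm z)) ≠ 0) := by
      apply Filter.Eventually.and ((φ i).open_target.mem_nhds ((φ i).map_source hss))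
      exact ((φ i).tendsto_symm hss).eventually hN
    obtain ⟨ε, hε, hball⟩ := Metric.eventually_nhds_iff_ball.1 hN2
    have hconst : ∀ z ∈ Metric.ball (φ i s) ε, (u ∘ (φ i).symm) z = (u ∘ (φ i).symm) (φ i s) := by
      intro z hz
      have hder : EqOn (fderiv ℝ (u ∘ (φ i).symm)) 0 (Metric.ball (φ i s) ε) := by
        intro w hw
        obtain ⟨h1, h2, h3⟩ := hball w hw
        exact deriv_zero_of_dens hu (hρ i).1 h1 h2 h3 (hdz w h1)
      have hdiff : DifferentiableOn ℝ (u ∘ (φ i).symm) (Metric.ball (φ i s) ε) := by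
        intro w hw
        obtain ⟨h1, h2, h3⟩ := hball w hw
        exact ((((hu.smooth _ (hρ i).1).contDiffAt
          ((φ i).open_target.mem_nhds h1)).differentiableAt (by simp))).differentiableWithinAt
      exact Metric.isOpen_ball.is_const_of_fderiv_eq_zero
        (convex_ball _ _).isPreconnected hdiff hder hz (Metric.mem_ball_self hε)
    have hev : ∀ᶠ t in 𝓝 s, φ i t ∈ Metric.ball (φ i s) ε ∧ t ∈ (φ i).source := by
      apply Filter.Eventually.and
      · exact ((φ i).continuousAt hss).eventually (Metric.ball_mem_nhds _ hε)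
      · exact (φ i).open_source.mem_nhds hss
    filter_upwards [hev] with t ht
    have := hconst _ ht.1
    simpa [(φ i).left_inv ht.2, (φ i).left_inv hss] using this
  · intro hne
    by_contra hcon
    push Not at hcon
    apply hne
    apply finsum_eq_zero_of_forall_eq_zero
    intro i
    apply setIntegral_eq_zero_of_forall_eq_zero
    intro z hz
    unfold dens
    by_cases h2 : χ (u ((φ i).symm z)) = 0
    · simp [h2]
    · have h3 := hcon _ h2
      have h4 : ∀ᶠ w in 𝓝 z, u ((φ i).symm w) = u ((φ i).symm z) := by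
        have h5 := ((φ i).symm.continuousAt (x := z) hz).eventually h3
        exact h5
      have h6 : fderiv ℝ (u ∘ (φ i).symm) z = 0 := by
        have h7 : (u ∘ (φ i).symm) =ᶠ[𝓝 z] fun _ => u ((φ i).symm z) := h4
        rw [h7.fderiv_eq]
        simp
      rw [h6]
      have h8 : (![(0 : ℂ →L[ℝ] L × T) 1, (0 : ℂ →L[ℝ] L × T) Complex.I] : Fin 2 → L × T) = 0 := by
        funext k
        fin_cases k <;> simp
      rw [h8, ContinuousAlternatingMap.map_zero]
      simp

end Pool.Agent.H994R3.Leafwise
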