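import Mathlib
import Pool.Agent.H994R3.LeafwiseDefs
import Pool.Agent.H994R3.LeafwiseCurrent

set_option autoImplicit false

open MeasureTheory TopologicalSpace Set Function
open scoped Distributions Manifold ContDiff Topology

namespace Pool.Agent.H994R3.Leafwise

/-- the three directions of the tropical line -/
def dirR (k : Fin 3) : ℝ × ℝ := ![((-1 : ℝ), (0 : ℝ)), (0, -1), (1, 1)] k

/-- `ℝ² → ℂ²` -/
noncomputable def cplx : (ℝ × ℝ) →L[ℝ] (ℂ × ℂ) :=
  Complex.ofRealCLM.prodMap Complex.ofRealCLM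

theorem cplx_apply (p : ℝ × ℝ) : cplx p = ((p.1 : ℂ), (p.2 : ℂ)) := rfl

theorem sum_dirR : ∑ k, dirR k = 0 := by
  simp [Fin.sum_univ_three, dirR]

section

variable {L T : Type*} [NormedAddCommGroup L] [NormedSpace ℂ L]
  [NormedAddCommGroup T] [NormedSpace ℝ T]

/-- the parametrisation of the `k`-th piece of the support -/
noncomputable def psi (j : (ℂ × ℂ) →L[ℂ] L) (k : Fin 3) : (ℝ × (ℝ × ℝ)) →L[ℝ] L × T :=
  (ContinuousLinearMap.inl ℝ L T) ∘L (j.restrictScalars ℝ) ∘L
    ((ContinuousLinearMap.fst ℝ ℝ (ℝ × ℝ)).smulRight (cplx (dirR k)) +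
      Complex.I • (cplx ∘L (ContinuousLinearMap.snd ℝ ℝ (ℝ × ℝ))))

theorem psi_apply (j : (ℂ × ℂ) →L[ℂ] L) (k : Fin 3) (x : ℝ × (ℝ × ℝ)) :
    (psi j k x : L × T) = (j (x.1 • cplx (dirR k) + Complex.I • cplx x.2), 0) := by
  simp [psi]

theorem psi_injective (j : (ℂ × ℂ) →L[ℂ] L) (hj : Injective j) (k : Fin 3) :
    Injective (psi j k : (ℝ × (ℝ × ℝ)) → L × T) := by
  rw [← ContinuousLinearMap.coe_coe, ← LinearMap.ker_eq_bot, LinearMap.ker_eq_bot']
  intro x hx
  rw [ContinuousLinearMap.coe_coe, psi_apply] at hx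
  have h1 : j (x.1 • cplx (dirR k) + Complex.I • cplx x.2) = 0 := congrArg Prod.fst hx
  have h2 : x.1 • cplx (dirR k) + Complex.I • cplx x.2 = 0 := hj (by rw [h1, map_zero])
  have ha := congrArg Prod.fst h2
  have hb := congrArg Prod.snd h2
  have ha1 := congrArg Complex.re ha
  have ha2 := congrArg Complex.im ha
  have hb1 := congrArg Complex.re hb
  have hb2 := congrArg Complex.im hb
  obtain ⟨r, s1, s2⟩ := x
  fin_cases k <;> simp [dirR, cplx_apply] at ha1 ha2 hb1 hb2 <;> simp [*]

variable [FiniteDimensional ℂ L] [FiniteDimensional ℝ T]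

/-- the image measure of the half space under `psi` -/
noncomputable def mu (j : (ℂ × ℂ) →L[ℂ] L) (k : Fin 3) :
    @Measure (L × T) (borel (L × T)) :=
  letI : MeasurableSpace (L × T) := borel (L × T)
  ((volume : Measure (ℝ × (ℝ × ℝ))).restrict (Ioi (0 : ℝ) ×ˢ univ)).map (psi j k)

/-- the tropical current -/
noncomputable def trop (j : (ℂ × ℂ) →L[ℂ] L) : Current 2 (⊤ : Opens (L × T)) :=
  letI : MeasurableSpace (L × T) := borel (L × T)
  letI : BorelSpace (L × T) := ⟨rfl⟩
  ∑ k : Fin 3, StrongDual.toWeakDual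
    (TestFunction.integralAgainstBilinCLM
      ((ContinuousLinearMap.mul ℝ ℝ) ∘L
        (wedge ((j (cplx (dirR k)), 0) : L × T) (Complex.I • j (cplx (dirR k)), 0)))
      (mu j k) (fun _ => (1 : ℝ)))

theorem trop_apply (j : (ℂ × ℂ) →L[ℂ] L) (hj : Injective j)
    (α : 𝓓((⊤ : Opens (L × T)), Form (L × T) 2)) :
    trop j α = ∑ k : Fin 3, ∫ x in Ioi (0 : ℝ) ×ˢ (univ : Set (ℝ × ℝ)),
      α (psi j k x) ![(j (cplx (dirR k)), 0), (Complex.I • j (cplx (dirR k)), 0)] := by
  let _ : MeasurableSpace (L × T) := borel (L × T)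
  have _ : BorelSpace (L × T) := ⟨rfl⟩
  have _ : FiniteDimensional ℝ L := FiniteDimensional.complexToReal L
  have _ : ProperSpace (L × T) := FiniteDimensional.proper_real (L × T)
  have e1 : trop j α = ∑ k : Fin 3, TestFunction.integralAgainstBilinCLM
      ((ContinuousLinearMap.mul ℝ ℝ) ∘L
        (wedge ((j (cplx (dirR k)), 0) : L × T) (Complex.I • j (cplx (dirR k)), 0)))
      (mu j k) (fun _ => (1 : ℝ)) α := by
    simp only [trop, Fin.sum_univ_three]
    rfl
  rw [e1]
  apply Finset.sum_congr rfl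
  intro k _
  have hemb : Topology.IsClosedEmbedding (psi j k : (ℝ × (ℝ × ℝ)) → L × T) :=
    LinearMap.isClosedEmbedding_of_injective (𝕜 := ℝ) (f := (psi (T := T) j k).toLinearMap)
      (LinearMap.ker_eq_bot.2 (psi_injective j hj k))
  have hfin : IsFiniteMeasureOnCompacts (mu j k : Measure (L × T)) := by
    refine ⟨fun K hK => ?_⟩
    rw [mu, Measure.map_apply hemb.continuous.measurable hK.measurableSet]
    exact lt_of_le_of_lt (Measure.restrict_apply_le _ _) (hemb.isCompact_preimage hK).measure_lt_top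
  have hloc : LocallyIntegrableOn (fun _ : L × T => (1 : ℝ)) ((⊤ : Opens (L × T)) : Set (L × T))
      (mu j k : Measure (L × T)) := by
    exact (locallyIntegrable_const (1 : ℝ)).locallyIntegrableOn _
  rw [TestFunction.integralAgainstBilinCLM_eq_integral hloc, mu, hemb.integral_map]
  simp [wedge]

omit [FiniteDimensional ℂ L] [FiniteDimensional ℝ T] in
theorem mem_structureCone (y : L × T) (v : L) :
    wedge ((v, 0) : L × T) (Complex.I • v, 0) ∈ structureCone (stdACS L T) y := by
  rintro K ⟨_, _, _, hK⟩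
  apply hK
  exact ⟨v, rfl⟩

theorem trop_mem_cCurrents (j : (ℂ × ℂ) →L[ℂ] L) (hj : Injective j) :
    (trop j : Current 2 (⊤ : Opens (L × T))) ∈ cCurrents (stdACS L T) := by
  apply mem_closedConvexCone_of_nonneg
  · exact ⟨_, 0, _, mem_structureCone 0 0, isDirac_dirac 0 _⟩
  · intro α hα
    rw [trop_apply j hj]
    apply Finset.sum_nonneg
    intro k _
    apply integral_nonneg
    intro x
    have := hα _ ⟨psi j k x, _, mem_structureCone (T := T) _ (j (cplx (dirR k))),
      isDirac_dirac (psi j k x) _⟩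
    rw [dirac_apply] at this
    exact this

theorem trop_isCycle (j : (ℂ × ℂ) →L[ℂ] L) (hj : Injective j) :
    IsCycle (p := 1) (trop j : Current 2 (⊤ : Opens (L × T))) := by
  intro β γ hγ
  change trop j γ = 0
  rw [trop_apply j hj]
  have _ : FiniteDimensional ℝ L := FiniteDimensional.complexToReal L
  -- the coefficient functions
  set g : L × T → L × T → ℝ := fun a y => β y ![a] with hg
  have hgs : ∀ a, ContDiff ℝ ∞ (g a) := by
    intro a
    have h := (ContinuousAlternatingMap.apply ℝ (L × T) ℝ ![a]).contDiff (n := ∞)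
    exact h.comp β.contDiff
  have hβd : ∀ y, DifferentiableAt ℝ β y := fun y => β.contDiff.differentiable (by simp) y
  have hd : ∀ y a b, γ y ![a, b] = fderiv ℝ (g b) y a - fderiv ℝ (g a) y b := by
    intro y a b
    rw [hγ y]
    have r0 : (0 : Fin 2).removeNth ![a, b] = ![b] := by
      funext i
      fin_cases i
      rfl
    have r1 : (1 : Fin 2).removeNth ![a, b] = ![a] := by
      funext i
      fin_cases i
      rfl
    rw [extDeriv_apply (hβd y), Fin.sum_univ_two, r0, r1]
    simp [hg, sub_eq_add_neg]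
  have hpsi : ∀ k, ContDiff ℝ ∞ (psi (T := T) j k) := fun k => (psi (T := T) j k).contDiff
  have hemb : ∀ k, Topology.IsClosedEmbedding (psi j k : (ℝ × (ℝ × ℝ)) → L × T) := fun k =>
    LinearMap.isClosedEmbedding_of_injective (𝕜 := ℝ) (f := (psi (T := T) j k).toLinearMap)
      (LinearMap.ker_eq_bot.2 (psi_injective j hj k))
  have hgc : ∀ a, HasCompactSupport (g a) := by
    intro a
    exact β.hasCompactSupport.comp_left (g := fun w : Form (L × T) 1 => w ![a]) rfl
  have hGs : ∀ a k, ContDiff ℝ ∞ (g a ∘ psi (T := T) j k) := fun a k => (hgs a).comp (hpsi k)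
  have hGc : ∀ a k, HasCompactSupport (g a ∘ psi (T := T) j k) := fun a k =>
    (hgc a).comp_isClosedEmbedding (hemb k)
  have hder : ∀ a k x w, fderiv ℝ (g a ∘ psi (T := T) j k) x w =
      fderiv ℝ (g a) (psi j k x) (psi j k w) := by
    intro a k x w
    rw [fderiv_comp x ((hgs a).differentiable (by simp) _) (psi j k).differentiableAt]
    simp
  have hA : ∀ k, (psi j k (1, 0) : L × T) = (j (cplx (dirR k)), 0) := by
    intro k
    rw [psi_apply]
    simp
  have hB : ∀ k, (psi j k (0, dirR k) : L × T) = (Complex.I • j (cplx (dirR k)), 0) := by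
    intro k
    rw [psi_apply, ← map_smul]
    simp
  have hterm : ∀ k : Fin 3, ∫ x in Ioi (0 : ℝ) ×ˢ (univ : Set (ℝ × ℝ)),
      γ (psi j k x) ![(j (cplx (dirR k)), 0), (Complex.I • j (cplx (dirR k)), 0)] =
      - ∫ s : ℝ × ℝ, g (Complex.I • j (cplx (dirR k)), 0) (j (Complex.I • cplx s), 0) := by
    intro k
    have e : ∀ x, γ (psi j k x)
        ![(j (cplx (dirR k)), 0), (Complex.I • j (cplx (dirR k)), 0)] =
        fderiv ℝ (g (Complex.I • j (cplx (dirR k)), 0) ∘ psi (T := T) j k) x (1, 0) -
        fderiv ℝ (g (j (cplx (dirR k)), 0) ∘ psi (T := T) j k) x (0, dirR k) := by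
      intro x
      rw [hd, hder, hder, hA, hB]
    simp_rw [e]
    rw [integral_sub]
    · rw [int_first _ (hGs _ k) (hGc _ k), int_second _ (hGs _ k) (hGc _ k), sub_zero]
      congr 1
      apply integral_congr_ae
      filter_upwards with s
      simp only [Function.comp_apply]
      rw [psi_apply]
      simp
    · apply Integrable.restrict
      exact (((hGs _ k).continuous_fderiv (by simp)).clm_apply
        continuous_const).integrable_of_hasCompactSupport ((hGc _ k).fderiv_apply ℝ _)
    · apply Integrable.restrict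
      exact (((hGs _ k).continuous_fderiv (by simp)).clm_apply
        continuous_const).integrable_of_hasCompactSupport ((hGc _ k).fderiv_apply ℝ _)
  rw [Finset.sum_congr rfl (fun k _ => hterm k), Finset.sum_neg_distrib, neg_eq_zero]
  have hint : ∀ a, Integrable (fun s : ℝ × ℝ => g a (j (Complex.I • cplx s), 0)) volume := by
    intro a
    have h1 : Continuous (fun s : ℝ × ℝ => g a (j (Complex.I • cplx s), 0)) := by
      have h2 : Continuous (fun s : ℝ × ℝ => ((j (Complex.I • cplx s), 0) : L × T)) := by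
        fun_prop
      exact (hgs a).continuous.comp h2
    apply h1.integrable_of_hasCompactSupport
    refine HasCompactSupport.intro (K := Prod.snd '' tsupport (g a ∘ psi (T := T) j 0))
        ((hGc a 0).isCompact.image continuous_snd) (fun s hs => ?_)
    by_contra hne
    refine hs ⟨(0, s), subset_tsupport _ ?_, rfl⟩
    simp only [mem_support, Function.comp_apply]
    rw [psi_apply]
    simpa using hne
  rw [← integral_finsetSum _ (fun k _ => hint _)]
  have hz : ∀ s : ℝ × ℝ,
      ∑ k : Fin 3, g (Complex.I • j (cplx (dirR k)), 0) (j (Complex.I • cplx s), 0) = 0 := by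
    intro s
    have hlin : ∀ y, ∃ ℓ : (L × T) →ₗ[ℝ] ℝ, ∀ a, g a y = ℓ a := by
      intro y
      refine ⟨((ContinuousAlternatingMap.ofSubsingleton ℝ (L × T) ℝ (0 : Fin 1)).symm
        (β y)).toLinearMap, fun a => ?_⟩
      simp only [hg]
      have : (![a] : Fin 1 → L × T) = fun _ => a := by
        funext i
        fin_cases i
        rfl
      rw [this]
      rfl
    obtain ⟨ℓ, hℓ⟩ := hlin (j (Complex.I • cplx s), 0)
    simp_rw [hℓ]
    rw [← map_sum]
    have : ∑ k : Fin 3, ((Complex.I • j (cplx (dirR k)), 0) : L × T) = 0 := by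
      have h3 : ∑ k : Fin 3, ((Complex.I • j (cplx (dirR k)), 0) : L × T) =
          (Complex.I • j (cplx (∑ k, dirR k)), 0) := by
        rw [map_sum, map_sum, Finset.smul_sum]
        simp [Fin.sum_univ_three]
      rw [h3, sum_dirR]
      simp
    rw [this, map_zero]
  simp only [hz, integral_zero]

end

end Pool.Agent.H994R3.Leafwise
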