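import Mathlib
import Pool.Agent.H994R3.LeafwiseTropical
import Pool.Agent.H994R3.LeafwiseMass2

set_option autoImplicit false

open MeasureTheory TopologicalSpace Set Function
open scoped Distributions Manifold ContDiff Topology

namespace Pool.Agent.H994R3.Leafwise

variable {L T : Type*} [NormedAddCommGroup L] [NormedSpace ℂ L]
  [NormedAddCommGroup T] [NormedSpace ℝ T]

/-- the tropical line -/
def TR (p : ℝ × ℝ) : Prop :=
  (p.2 = 0 ∧ p.1 ≤ 0) ∨ (p.1 = 0 ∧ p.2 ≤ 0) ∨ (p.1 = p.2 ∧ 0 ≤ p.1)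

theorem TR_dir (k : Fin 3) (r : ℝ) (hr : 0 ≤ r) : TR (r • dirR k) := by
  fin_cases k
  · left; simp [dirR, hr]
  · right; left; simp [dirR, hr]
  · right; right; simp [dirR, hr]

/-- the support of the current -/
def DD (T : Type*) [NormedAddCommGroup T] [NormedSpace ℝ T]
    (j : (ℂ × ℂ) →L[ℂ] L) (π : L →L[ℂ] (ℂ × ℂ)) : Set (L × T) :=
  {y | y.2 = 0 ∧ j (π y.1) = y.1 ∧ TR ((π y.1).1.re, (π y.1).2.re)}

theorem isClosed_DD (j : (ℂ × ℂ) →L[ℂ] L) (π : L →L[ℂ] (ℂ × ℂ)) : IsClosed (DD T j π) := by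
  have h1 : IsClosed {y : L × T | y.2 = 0} := isClosed_eq continuous_snd continuous_const
  have h2 : IsClosed {y : L × T | j (π y.1) = y.1} := isClosed_eq (by fun_prop) (by fun_prop)
  have h3 : IsClosed {y : L × T | TR ((π y.1).1.re, (π y.1).2.re)} := by
    have hx : Continuous (fun y : L × T => (π y.1).1.re) :=
      Complex.continuous_re.comp (continuous_fst.comp (π.continuous.comp continuous_fst))
    have hy : Continuous (fun y : L × T => (π y.1).2.re) :=
      Complex.continuous_re.comp (continuous_snd.comp (π.continuous.comp continuous_fst))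
    apply IsClosed.union
    · exact (isClosed_eq hy continuous_const).inter (isClosed_le hx continuous_const)
    · apply IsClosed.union
      · exact (isClosed_eq hx continuous_const).inter (isClosed_le hy continuous_const)
      · exact (isClosed_eq hx hy).inter (isClosed_le continuous_const hx)
  exact h1.inter (h2.inter h3)

theorem psi_mem_DD (j : (ℂ × ℂ) →L[ℂ] L) (π : L →L[ℂ] (ℂ × ℂ)) (hπ : ∀ a, π (j a) = a)
    (k : Fin 3) (x : ℝ × (ℝ × ℝ)) (hx : 0 ≤ x.1) : (psi j k x : L × T) ∈ DD T j π := by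
  rw [psi_apply]
  refine ⟨rfl, ?_, ?_⟩
  · simp only [hπ]
  · simp only [hπ]
    have := TR_dir k x.1 hx
    have e : x.1 • dirR k = (x.1 * (dirR k).1, x.1 * (dirR k).2) := rfl
    rw [e] at this
    simpa [cplx_apply] using this

/-! ### the key contradiction for a single curve -/

section Curve

variable {S : Type} [TopologicalSpace S] [ChartedSpace ℂ S]

theorem curve_contra [ConnectedSpace S] {U : Opens (L × T)}
    (j : (ℂ × ℂ) →L[ℂ] L) (hj : Injective j)
    {u : S → L × T} (hu : IsJCurve (stdACS L T) U S u) {h : S → ℂ} (hh : HolC h)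
    (hhc : Continuous h) (hne : ¬ ∃ c, ∀ s, h s = c) (hre : ∀ s, 0 ≤ (h s).re)
    {v b : ℂ × ℂ} (hv : v ≠ 0) (huh : ∀ s, u s = (j (h s • v + b), 0)) (s₀ : S) {M : ℝ}
    (hM : (h s₀).re < M)
    (hseg : ∀ τ ∈ Icc (0 : ℝ) M, ((j ((h s₀ - (τ : ℂ)) • v + b), 0) : L × T) ∈ U) : False := by
  set f : ℝ → L × T := fun τ => (j ((h s₀ - (τ : ℂ)) • v + b), 0) with hf
  have hfc : Continuous f := by
    rw [hf]
    apply Continuous.prodMk _ continuous_const
    apply j.continuous.comp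
    fun_prop
  have hM0 : 0 ≤ M := (hre s₀).trans hM.le
  have hK : IsCompact (f '' Icc 0 M) := isCompact_Icc.image hfc
  have hKU : f '' Icc 0 M ⊆ U := by
    rintro _ ⟨τ, hτ, rfl⟩
    exact hseg τ hτ
  have hP := hu.proper _ hKU hK
  have hs₀ : s₀ ∈ u ⁻¹' (f '' Icc 0 M) := by
    refine ⟨0, ⟨le_rfl, hM0⟩, ?_⟩
    rw [huh s₀, hf]
    simp
  obtain ⟨s₁, hs₁, hmin⟩ := hP.exists_isMinOn ⟨s₀, hs₀⟩
    (Complex.continuous_re.comp hhc).continuousOn
  obtain ⟨τ, hτ, hτe⟩ := hs₁
  have hval : h s₁ = h s₀ - (τ : ℂ) := by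
    rw [huh s₁, hf] at hτe
    have h1 := hj (congrArg Prod.fst hτe)
    have h2 : (h s₀ - (τ : ℂ)) • v = h s₁ • v := add_right_cancel h1
    exact (smul_left_injective ℂ hv h2).symm
  have hτM : τ < M := by
    have h1 := hre s₁
    rw [hval] at h1
    simp at h1
    linarith
  obtain ⟨x, hx0, hxP, t, ht⟩ := exists_value_sub hh hne s₁ (P := fun x => x < M - τ) (by
    have : Iio (M - τ) ∈ 𝓝 (0 : ℝ) := Iio_mem_nhds (by linarith)
    exact nhdsWithin_le_nhds this)
  have htP : t ∈ u ⁻¹' (f '' Icc 0 M) := by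
    refine ⟨τ + x, ⟨by linarith [hτ.1], by linarith⟩, ?_⟩
    rw [huh t, hf, ht, hval]
    simp only [Complex.ofReal_add]
    congr 3
    ring_nf
  have h1 : (h s₁).re ≤ (h t).re := hmin htP
  rw [ht] at h1
  simp at h1
  linarith

end Curve

/-! ### positivity of the current -/

section Pos

variable [FiniteDimensional ℂ L] [FiniteDimensional ℝ T]

theorem trop_scal (j : (ℂ × ℂ) →L[ℂ] L) (hj : Injective j) {U : Opens (L × T)}
    (χ : L × T → ℝ) (h1 : ContDiff ℝ ∞ χ) (h2 : HasCompactSupport χ) (h3 : tsupport χ ⊆ U) :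
    (trop j : Current 2 (⊤ : Opens (L × T)))
        (extendTest (scal (U := U) χ h1 h2 h3)) =
      ∑ k : Fin 3, ∫ x in Ioi (0 : ℝ) ×ˢ (univ : Set (ℝ × ℝ)),
        χ (psi j k x) * omega L T ![(j (cplx (dirR k)), 0), (Complex.I • j (cplx (dirR k)), 0)] := by
  rw [trop_apply j hj]
  apply Finset.sum_congr rfl
  intro k _
  apply integral_congr_ae
  filter_upwards with x
  rfl

theorem trop_scal_zero (j : (ℂ × ℂ) →L[ℂ] L) (hj : Injective j) (π : L →L[ℂ] (ℂ × ℂ))
    (hπ : ∀ a, π (j a) = a) {U : Opens (L × T)}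
    (χ : L × T → ℝ) (h1 : ContDiff ℝ ∞ χ) (h2 : HasCompactSupport χ) (h3 : tsupport χ ⊆ U)
    (h0 : ∀ y ∈ DD T j π, χ y = 0) :
    (trop j : Current 2 (⊤ : Opens (L × T)))
        (extendTest (scal (U := U) χ h1 h2 h3)) = 0 := by
  rw [trop_scal j hj]
  apply Finset.sum_eq_zero
  intro k _
  apply setIntegral_eq_zero_of_forall_eq_zero
  intro x hx
  rw [h0 _ (psi_mem_DD j π hπ k x (le_of_lt hx.1)), zero_mul]

theorem trop_scal_pos (j : (ℂ × ℂ) →L[ℂ] L) (hj : Injective j) {U : Opens (L × T)}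
    (χ : L × T → ℝ) (h1 : ContDiff ℝ ∞ χ) (h2 : HasCompactSupport χ) (h3 : tsupport χ ⊆ U)
    (hnn : ∀ y, 0 ≤ χ y) (h0 : χ 0 ≠ 0) :
    0 < (trop j : Current 2 (⊤ : Opens (L × T)))
        (extendTest (scal (U := U) χ h1 h2 h3)) := by
  rw [trop_scal j hj]
  have hom : ∀ k : Fin 3, 0 < omega L T
      ![(j (cplx (dirR k)), 0), (Complex.I • j (cplx (dirR k)), 0)] := by
    intro k
    refine lt_of_le_of_ne (omega_nonneg _ _ rfl) (fun hz => ?_)
    have h4 := omega_eq_zero ((j (cplx (dirR k)), 0) : L × T)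
      (Complex.I • j (cplx (dirR k)), 0) rfl hz.symm
    have h5 : cplx (dirR k) = 0 := hj (by rw [map_zero]; exact h4)
    fin_cases k <;> simp [cplx_apply, dirR] at h5
  have _ : FiniteDimensional ℝ L := FiniteDimensional.complexToReal L
  have hterm : ∀ k : Fin 3, 0 < ∫ x in Ioi (0 : ℝ) ×ˢ (univ : Set (ℝ × ℝ)),
        χ (psi j k x) * omega L T
          ![(j (cplx (dirR k)), 0), (Complex.I • j (cplx (dirR k)), 0)] := by
    intro k
    rw [integral_mul_const]
    apply mul_pos _ (hom k)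
    have hemb : Topology.IsClosedEmbedding (psi j k : (ℝ × (ℝ × ℝ)) → L × T) :=
      LinearMap.isClosedEmbedding_of_injective (𝕜 := ℝ) (f := (psi (T := T) j k).toLinearMap)
        (LinearMap.ker_eq_bot.2 (psi_injective j hj k))
    have hcont : Continuous (fun x => χ (psi (T := T) j k x)) := h1.continuous.comp hemb.continuous
    have hcomp : HasCompactSupport (fun x => χ (psi (T := T) j k x)) :=
      h2.comp_isClosedEmbedding hemb
    have hint : Integrable (fun x => χ (psi (T := T) j k x)) :=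
      hcont.integrable_of_hasCompactSupport hcomp
    rw [setIntegral_pos_iff_support_of_nonneg_ae
      (Filter.Eventually.of_forall (fun x => hnn _)) hint.integrableOn]
    apply IsOpen.measure_pos
    · exact (hcont.isOpen_support).inter (isOpen_Ioi.prod isOpen_univ)
    · have hN : ∀ᶠ x in 𝓝 (0 : ℝ × (ℝ × ℝ)), χ (psi (T := T) j k x) ≠ 0 := by
        apply hcont.continuousAt.eventually_ne
        rw [map_zero]
        exact h0
      have hN2 : Filter.Tendsto (fun t : ℝ => ((t, 0) : ℝ × (ℝ × ℝ))) (𝓝[>] 0) (𝓝 0) := by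
        have : Filter.Tendsto (fun t : ℝ => ((t, 0) : ℝ × (ℝ × ℝ))) (𝓝 0) (𝓝 (0, 0)) := by
          apply Continuous.tendsto; fun_prop
        exact this.mono_left nhdsWithin_le_nhds
      have h5 : ∀ᶠ x : ℝ in 𝓝[>] 0, 0 < x := self_mem_nhdsWithin
      obtain ⟨t, ht1, ht2⟩ := ((hN2.eventually hN).and h5).exists
      exact ⟨(t, 0), ht1, ht2, trivial⟩
  exact Finset.sum_pos (fun k _ => hterm k) Finset.univ_nonempty

end Pos

end Pool.Agent.H994R3.Leafwise
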