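import Mathlib
import Pool.Agent.H994R3.LeafwiseMain

set_option autoImplicit false

open MeasureTheory TopologicalSpace Set Function
open scoped Distributions Manifold ContDiff Topology

namespace Pool.Agent.H994R3.Leafwise

variable {L T : Type*} [NormedAddCommGroup L] [NormedSpace ℂ L]
  [NormedAddCommGroup T] [NormedSpace ℝ T] [FiniteDimensional ℂ L] [FiniteDimensional ℝ T]

omit [FiniteDimensional ℝ T] in
/-- A single curve contained (near the origin) in the support of the tropical current gives a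
contradiction. -/
theorem curve_final {S : Type} [TopologicalSpace S] [ConnectedSpace S]
    [ChartedSpace ℂ S] {U : Opens (L × T)}
    (j : (ℂ × ℂ) →L[ℂ] L) (hj : Injective j) (π : L →L[ℂ] (ℂ × ℂ))
    {u : S → L × T} (hu : IsJCurve (stdACS L T) U S u)
    {δ : ℝ} (hδ : 0 < δ)
    (hball : Metric.ball (0 : L × T) (δ + (‖π‖ * δ + δ) * ‖j‖ + δ) ⊆ U)
    (hoff : ∀ s, u s ∉ DD T j π → ∀ᶠ t in 𝓝 s, u t = u s)
    (s₀ : S) (hs₀ : ‖u s₀‖ < δ) (hs₀' : ¬ ∀ᶠ t in 𝓝 s₀, u t = u s₀) : False := by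
  obtain ⟨t₀, ht₀⟩ := hu.leaf
  have hnc : ¬ ∃ c, ∀ s, u s = c := by
    rintro ⟨c, hc⟩
    apply hs₀'
    filter_upwards with t
    rw [hc, hc]
  have hol := hu.holC
  -- the whole curve lies in the support
  have hin : ∀ s, u s ∈ DD T j π := by
    intro s
    by_contra hs
    apply hnc
    have h1 : ∀ᶠ t in 𝓝 s, (u t).1 = (u s).1 := by
      filter_upwards [hoff s hs] with t ht
      rw [ht]
    have h2 := identity hol _ s h1
    exact ⟨((u s).1, t₀), fun t => Prod.ext (h2 t) (ht₀ t)⟩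
  set a : S → ℂ × ℂ := fun s => π (u s).1 with ha
  have hua : ∀ s, u s = (j (a s), 0) := fun s => Prod.ext (hin s).2.1.symm (hin s).1
  have haTR : ∀ s, TR ((a s).1.re, (a s).2.re) := fun s => (hin s).2.2
  have hac : Continuous a := π.continuous.comp (continuous_fst.comp hu.continuous)
  have hah : HolC a := fun φ hφ => π.differentiable.comp_differentiableOn (hol φ hφ)
  have hzh : HolC (fun s => (a s).1) := fun φ hφ => (hah φ hφ).fst
  have hwh : HolC (fun s => (a s).2) := fun φ hφ => (hah φ hφ).snd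
  have hzc : Continuous (fun s => (a s).1) := continuous_fst.comp hac
  have hwc : Continuous (fun s => (a s).2) := continuous_snd.comp hac
  have hnorm : ‖a s₀‖ ≤ ‖π‖ * δ := by
    calc ‖a s₀‖ ≤ ‖π‖ * ‖(u s₀).1‖ := π.le_opNorm _
      _ ≤ ‖π‖ * δ := by
        apply mul_le_mul_of_nonneg_left _ (norm_nonneg _)
        exact (norm_fst_le (u s₀)).trans hs₀.le
  -- the general conclusion: `a = h • v + b`
  have key : ∀ (h : S → ℂ) (v b : ℂ × ℂ), HolC h → Continuous h → v ≠ 0 → ‖v‖ ≤ 1 →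
      (∀ s, a s = h s • v + b) → (∀ s, 0 ≤ (h s).re) → (h s₀).re ≤ ‖a s₀‖ → False := by
    intro h v b hh hhc hv hv1 hab hre hle
    have hhn : ¬ ∃ c, ∀ s, h s = c := by
      rintro ⟨c, hc⟩
      apply hnc
      refine ⟨(j (c • v + b), 0), fun s => ?_⟩
      rw [hua, hab, hc]
    refine curve_contra j hj hu hh hhc hhn hre hv (fun s => by rw [hua, hab]) s₀
      (M := (h s₀).re + δ) (by linarith) ?_
    intro τ hτ
    apply hball
    rw [mem_ball_zero_iff]
    have e : ((j ((h s₀ - (τ : ℂ)) • v + b), 0) : L × T) = u s₀ - (j ((τ : ℂ) • v), 0) := by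
      rw [hua, hab]
      apply Prod.ext
      · simp only [Prod.fst_sub]
        rw [← map_sub]
        congr 1
        rw [sub_smul]
        abel
      · simp
    rw [e]
    have h1 : ‖((j ((τ : ℂ) • v), 0) : L × T)‖ ≤ (‖π‖ * δ + δ) * ‖j‖ := by
      rw [Prod.norm_mk, norm_zero, max_eq_left (norm_nonneg _)]
      calc ‖j ((τ : ℂ) • v)‖ ≤ ‖j‖ * ‖(τ : ℂ) • v‖ := j.le_opNorm _
        _ ≤ ‖j‖ * (‖π‖ * δ + δ) := by
          apply mul_le_mul_of_nonneg_left _ (norm_nonneg _)
          rw [norm_smul, Complex.norm_real, Real.norm_of_nonneg hτ.1]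
          have hτ2 : τ ≤ ‖π‖ * δ + δ := by linarith [hτ.2]
          calc τ * ‖v‖ ≤ τ * 1 := mul_le_mul_of_nonneg_left hv1 hτ.1
            _ ≤ ‖π‖ * δ + δ := by linarith
        _ = (‖π‖ * δ + δ) * ‖j‖ := mul_comm _ _
    calc ‖u s₀ - (j ((τ : ℂ) • v), 0)‖ ≤ ‖u s₀‖ + ‖((j ((τ : ℂ) • v), 0) : L × T)‖ :=
          norm_sub_le _ _
      _ < δ + (‖π‖ * δ + δ) * ‖j‖ + δ := by linarith
  -- three closed sets cover the surface
  set A0 : Set S := {s | (a s).2.re = 0 ∧ (a s).1.re ≤ 0} with hA0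
  set A1 : Set S := {s | (a s).1.re = 0 ∧ (a s).2.re ≤ 0} with hA1
  set A2 : Set S := {s | (a s).1.re = (a s).2.re ∧ 0 ≤ (a s).1.re} with hA2
  have hzr : Continuous (fun s => (a s).1.re) := Complex.continuous_re.comp hzc
  have hwr : Continuous (fun s => (a s).2.re) := Complex.continuous_re.comp hwc
  have hc0 : IsClosed A0 :=
    (isClosed_eq hwr continuous_const).inter (isClosed_le hzr continuous_const)
  have hc1 : IsClosed A1 :=
    (isClosed_eq hzr continuous_const).inter (isClosed_le hwr continuous_const)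
  have hc2 : IsClosed A2 := (isClosed_eq hzr hwr).inter (isClosed_le continuous_const hzr)
  have hcov : A0 ∪ (A1 ∪ A2) = univ := by
    apply eq_univ_of_forall
    intro s
    rcases haTR s with h | h | h
    · left; exact h
    · right; left; exact h
    · right; right; exact h
  have hint : (interior A0).Nonempty ∨ (interior A1).Nonempty ∨ (interior A2).Nonempty := by
    by_contra hcon
    push Not at hcon
    obtain ⟨h0, h1, h2⟩ := hcon
    have h3 : interior (A1 ∪ A2) = ∅ := by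
      rw [interior_union_isClosed_of_interior_empty hc1 h2, h1]
    have h4 : interior (A0 ∪ (A1 ∪ A2)) = ∅ := by
      rw [interior_union_isClosed_of_interior_empty hc0 h3, h0]
    rw [hcov, interior_univ] at h4
    exact (Set.univ_nonempty (α := S)).ne_empty h4
  rcases hint with ⟨s₁, h1⟩ | ⟨s₁, h1⟩ | ⟨s₁, h1⟩
  · -- `w` is constant
    have h2 : ∀ᶠ t in 𝓝 s₁, (a t).2.re = 0 := by
      filter_upwards [isOpen_interior.mem_nhds h1] with t ht
      exact (interior_subset ht).1
    have h3 := identity hwh _ s₁ (const_of_re_zero hwh s₁ h2)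
    have h4 : (a s₁).2.re = 0 := h2.self_of_nhds
    refine key (fun s => -(a s).1) (-1, 0) (0, (a s₁).2) (fun φ hφ => (hzh φ hφ).neg) hzc.neg
      (by simp) (by simp) ?_ ?_ ?_
    · intro s
      apply Prod.ext
      · simp
      · simp [h3 s]
    · intro s
      have h5 := haTR s
      have h6 : (a s).2.re = 0 := by rw [h3 s, h4]
      rcases h5 with h | h | h
      · simp only [Complex.neg_re]
        linarith [h.2]
      · simp only [Complex.neg_re]
        have := h.1
        simp only at this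
        linarith
      · simp only [Complex.neg_re]
        have := h.1
        simp only at this
        linarith
    · calc (-(a s₀).1).re ≤ ‖-(a s₀).1‖ := Complex.re_le_norm _
        _ = ‖(a s₀).1‖ := norm_neg _
        _ ≤ ‖a s₀‖ := norm_fst_le _
  · -- `z` is constant
    have h2 : ∀ᶠ t in 𝓝 s₁, (a t).1.re = 0 := by
      filter_upwards [isOpen_interior.mem_nhds h1] with t ht
      exact (interior_subset ht).1
    have h3 := identity hzh _ s₁ (const_of_re_zero hzh s₁ h2)
    have h4 : (a s₁).1.re = 0 := h2.self_of_nhds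
    refine key (fun s => -(a s).2) (0, -1) ((a s₁).1, 0) (fun φ hφ => (hwh φ hφ).neg) hwc.neg
      (by simp) (by simp) ?_ ?_ ?_
    · intro s
      apply Prod.ext
      · simp [h3 s]
      · simp
    · intro s
      have h5 := haTR s
      have h6 : (a s).1.re = 0 := by rw [h3 s, h4]
      rcases h5 with h | h | h
      · simp only [Complex.neg_re]
        have := h.1
        simp only at this
        linarith
      · simp only [Complex.neg_re]
        linarith [h.2]
      · simp only [Complex.neg_re]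
        have := h.1
        simp only at this
        linarith
    · calc (-(a s₀).2).re ≤ ‖-(a s₀).2‖ := Complex.re_le_norm _
        _ = ‖(a s₀).2‖ := norm_neg _
        _ ≤ ‖a s₀‖ := norm_snd_le _
  · -- `z - w` is constant
    have hdh : HolC (fun s => (a s).1 - (a s).2) := fun φ hφ => (hzh φ hφ).sub (hwh φ hφ)
    have h2 : ∀ᶠ t in 𝓝 s₁, ((a t).1 - (a t).2).re = 0 := by
      filter_upwards [isOpen_interior.mem_nhds h1] with t ht
      have := (interior_subset ht).1
      simp [this]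
    have h3 := identity hdh _ s₁ (const_of_re_zero hdh s₁ h2)
    have h4 : ((a s₁).1 - (a s₁).2).re = 0 := h2.self_of_nhds
    refine key (fun s => (a s).2) (1, 1) ((a s₁).1 - (a s₁).2, 0) hwh hwc
      (by simp) (by simp [Prod.norm_mk]) ?_ ?_ ?_
    · intro s
      apply Prod.ext
      · simp only [Prod.fst_add, Prod.smul_fst, smul_eq_mul, mul_one]
        linear_combination h3 s
      · simp
    · intro s
      have h5 := haTR s
      have h6 : (a s).1.re = (a s).2.re := by
        have := congrArg Complex.re (h3 s)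
        rw [h4] at this
        simp only [Complex.sub_re] at this
        linarith
      rcases h5 with h | h | h
      · exact le_of_eq h.1.symm
      · have := h.1
        simp only at this
        linarith
      · have := h.2
        simp only at this
        linarith
    · exact (Complex.re_le_norm _).trans (norm_snd_le _)

theorem not_superposition (j : (ℂ × ℂ) →L[ℂ] L) (hj : Injective j) (π : L →L[ℂ] (ℂ × ℂ))
    (hπ : ∀ a, π (j a) = a) (U : Opens (L × T)) (hU : (0 : L × T) ∈ U) :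
    ¬ IsSuperposition (stdACS L T) U (trop j) := by
  rintro ⟨m, ν, hν'⟩
  have hν : ∀ α : 𝓓(U, Form (L × T) 2),
      Integrable (fun c' : jCurves (stdACS L T) U => c'.1 α) ν ∧
      (trop j : Current 2 (⊤ : Opens (L × T))) (extendTest α) =
        ∫ c' : jCurves (stdACS L T) U, c'.1 α ∂ν := fun α => hν' α (extendTest α) (fun _ => rfl)
  have _ : FiniteDimensional ℝ L := FiniteDimensional.complexToReal L
  have _ : ProperSpace (L × T) := FiniteDimensional.proper_real (L × T)
  -- a small ball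
  obtain ⟨r, hr, hball⟩ := Metric.isOpen_iff.1 U.isOpen 0 hU
  obtain ⟨δ, hδ, hδr⟩ : ∃ δ : ℝ, 0 < δ ∧ δ + (‖π‖ * δ + δ) * ‖j‖ + δ ≤ r := by
    refine ⟨r / (2 + (‖π‖ + 1) * ‖j‖), by positivity, ?_⟩
    have : r / (2 + (‖π‖ + 1) * ‖j‖) + (‖π‖ * (r / (2 + (‖π‖ + 1) * ‖j‖)) +
      r / (2 + (‖π‖ + 1) * ‖j‖)) * ‖j‖ + r / (2 + (‖π‖ + 1) * ‖j‖) = r := by
      have h2 : (0 : ℝ) < 2 + (‖π‖ + 1) * ‖j‖ := by positivity
      field_simp
      ring
    rw [this]
  have hballδ : Metric.ball (0 : L × T) (δ + (‖π‖ * δ + δ) * ‖j‖ + δ) ⊆ U :=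
    (Metric.ball_subset_ball hδr).trans hball
  -- bump functions off the support
  set W : Set (L × T) := (U : Set (L × T)) ∩ (DD T j π)ᶜ with hW
  have hWo : IsOpen W := U.isOpen.inter (isClosed_DD j π).isOpen_compl
  have hbump : ∀ y : W, ∃ f : L × T → ℝ, tsupport f ⊆ W ∧ HasCompactSupport f ∧
      ContDiff ℝ ∞ f ∧ range f ⊆ Icc 0 1 ∧ f y = 1 := fun y =>
    exists_contDiff_tsupport_subset (n := ⊤) (hWo.mem_nhds y.2)
  choose f hf1 hf2 hf3 hf4 hf5 using hbump
  have hfU : ∀ y, tsupport (f y) ⊆ U := fun y => (hf1 y).trans inter_subset_left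
  have hfnn : ∀ y x, 0 ≤ f y x := fun y x => (hf4 y ⟨x, rfl⟩).1
  have hfD : ∀ y, ∀ x ∈ DD T j π, f y x = 0 := by
    intro y x hx
    by_contra hne
    exact (hf1 y (subset_tsupport _ hne)).2 hx
  obtain ⟨C, hCc, hCU⟩ := TopologicalSpace.isOpen_iUnion_countable
    (fun y : W => {x | 0 < f y x}) (fun y => isOpen_lt continuous_const (hf3 y).continuous)
  -- nonnegativity of masses
  have hmass : ∀ (χ : L × T → ℝ) (h1 : ContDiff ℝ ∞ χ) (h2 : HasCompactSupport χ)
      (h3 : tsupport χ ⊆ U) (_ : ∀ y, 0 ≤ χ y) (c' : jCurves (stdACS L T) U),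
      0 ≤ c'.1 (scal χ h1 h2 h3) := by
    intro χ h1 h2 h3 hnn c'
    obtain ⟨c', S, _, _, _, _, _, u, hu, ι, ρ, φ, hρ, hint'⟩ := c'
    have hint := hint'
    simp only [pairing] at hint
    simp only
    rw [hint]
    exact (mass hu ρ φ hρ hnn h1.continuous h2 h3).1
  have hzero : ∀ y : W, ∀ᵐ c' ∂ν, c'.1 (scal (f y) (hf3 y) (hf2 y) (hfU y)) = 0 := by
    intro y
    have h1 := (hν (scal (f y) (hf3 y) (hf2 y) (hfU y))).2
    rw [trop_scal_zero j hj π hπ _ _ _ _ (hfD y)] at h1
    have h2 := (integral_eq_zero_iff_of_nonneg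
      (fun c' => hmass _ (hf3 y) (hf2 y) (hfU y) (hfnn y) c')
      (hν (scal (f y) (hf3 y) (hf2 y) (hfU y))).1).1 h1.symm
    exact h2
  have hall : ∀ᵐ c' ∂ν, ∀ y ∈ C, c'.1 (scal (f y) (hf3 y) (hf2 y) (hfU y)) = 0 := by
    rw [ae_ball_iff hCc]
    intro y _
    exact hzero y
  -- a bump function at the origin
  obtain ⟨χ, g1, g2, g3, g4, g5⟩ := exists_contDiff_tsupport_subset (n := ⊤)
    (Metric.ball_mem_nhds (0 : L × T) hδ)
  have hδU : Metric.ball (0 : L × T) δ ⊆ U := by
    refine (Metric.ball_subset_ball ?_).trans hballδ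
    have : 0 ≤ (‖π‖ * δ + δ) * ‖j‖ := by positivity
    linarith
  have g1U : tsupport χ ⊆ U := g1.trans hδU
  have gnn : ∀ y, 0 ≤ χ y := fun y => (g4 ⟨y, rfl⟩).1
  have hpos := trop_scal_pos j hj χ g3 g2 g1U gnn (by rw [g5]; exact one_ne_zero)
  have hex : ∃ c' : jCurves (stdACS L T) U,
      (∀ y ∈ C, c'.1 (scal (f y) (hf3 y) (hf2 y) (hfU y)) = 0) ∧
      c'.1 (scal χ g3 g2 g1U) ≠ 0 := by
    by_contra hcon
    push Not at hcon
    have h1 : ∀ᵐ c' ∂ν, c'.1 (scal χ g3 g2 g1U) = 0 := by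
      filter_upwards [hall] with c' hc'
      exact hcon c' hc'
    have h2 := (hν (scal χ g3 g2 g1U)).2
    rw [integral_eq_zero_of_ae h1] at h2
    exact hpos.ne' h2
  obtain ⟨⟨c', S, _, _, _, _, _, u, hu, ι, ρ, φ, hρ, hint'⟩, hc1, hc2⟩ := hex
  have hint := hint'
  simp only [pairing] at hint
  simp only at hc1 hc2
  rw [hint] at hc2
  obtain ⟨s₀, hs₀, hs₀'⟩ := (mass hu ρ φ hρ gnn g3.continuous g2 g1U).2.2 hc2
  refine curve_final j hj π hu hδ hballδ ?_ s₀ ?_ hs₀'
  · intro s hs
    have hsW : u s ∈ W := ⟨hu.mem s, hs⟩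
    have h1 : u s ∈ ⋃ y ∈ C, {x | 0 < f y x} := by
      rw [hCU, mem_iUnion]
      refine ⟨⟨u s, hsW⟩, ?_⟩
      show 0 < f ⟨u s, hsW⟩ (u s)
      rw [hf5 ⟨u s, hsW⟩]
      exact one_pos
    rw [mem_iUnion₂] at h1
    obtain ⟨y, hyC, hy⟩ := h1
    have h2 := hc1 y hyC
    rw [hint] at h2
    exact (mass hu ρ φ hρ (hfnn y) (hf3 y).continuous (hf2 y) (hfU y)).2.1 h2 s hy
  · have := g1 (subset_tsupport χ hs₀)
    rwa [mem_ball_zero_iff] at this

/-- The main theorem. -/
theorem main (hL : 2 ≤ Module.finrank ℂ L) :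
    ∃ c : Current 2 (⊤ : Opens (L × T)), c ∈ cCurrents (stdACS L T) ∧ IsCycle (p := 1) c ∧
      ∀ U : Opens (L × T), (0 : L × T) ∈ U → ¬ IsSuperposition (stdACS L T) U c := by
  set b := Module.finBasis ℂ L with hb
  set i0 : Fin (Module.finrank ℂ L) := ⟨0, by omega⟩ with hi0
  set i1 : Fin (Module.finrank ℂ L) := ⟨1, by omega⟩ with hi1
  have h01 : i0 ≠ i1 := by simp [hi0, hi1]
  set j : (ℂ × ℂ) →L[ℂ] L :=
    (ContinuousLinearMap.fst ℂ ℂ ℂ).smulRight (b i0) +
      (ContinuousLinearMap.snd ℂ ℂ ℂ).smulRight (b i1) with hj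
  set π : L →L[ℂ] (ℂ × ℂ) := (LinearMap.toContinuousLinearMap (b.coord i0)).prod
    (LinearMap.toContinuousLinearMap (b.coord i1)) with hπ
  have hπj : ∀ a, π (j a) = a := by
    intro a
    apply Prod.ext
    · simp [hπ, hj, Module.Basis.repr_self, h01, h01.symm]
    · simp [hπ, hj, Module.Basis.repr_self, h01, h01.symm]
  have hinj : Injective j := fun x y hxy => by rw [← hπj x, ← hπj y, hxy]
  exact ⟨trop j, trop_mem_cCurrents j hinj, trop_isCycle j hinj,
    fun U hU => not_superposition j hinj π hπj U hU⟩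

end Pool.Agent.H994R3.Leafwise
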